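import Pool.Agent.Lib.MP_4cd976_an.K.Defs
import Pool.Agent.Lib.MP_4cd976_an.DN.Defs

section
/-!
# MP_4cd976_an, block K, module SLI (part 1): real and imaginary parts of a polynomial, monotonicity of `Im/Re`
-/
set_option autoImplicit false

open Finset Polynomial Filter Topology

namespace Pool.Agent.Lib.MP4cd976.K

/-- coefficientwise real part -/
noncomputable def reP (N : ℂ[X]) : ℝ[X] := ∑ m ∈ range (N.natDegree + 1), monomial m (N.coeff m).re

/-- coefficientwise imaginary part -/
noncomputable def imP (N : ℂ[X]) : ℝ[X] := ∑ m ∈ range (N.natDegree + 1), monomial m (N.coeff m).im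

theorem coeff_reP (N : ℂ[X]) (m : ℕ) : (reP N).coeff m = (N.coeff m).re := by
  simp only [reP, finsetSum_coeff, coeff_monomial]
  rw [Finset.sum_ite_eq' (range (N.natDegree + 1)) m]
  split_ifs with h
  · rfl
  · rw [Finset.mem_range, not_lt] at h
    rw [coeff_eq_zero_of_natDegree_lt (by omega)]; simp

theorem coeff_imP (N : ℂ[X]) (m : ℕ) : (imP N).coeff m = (N.coeff m).im := by
  simp only [imP, finsetSum_coeff, coeff_monomial]
  rw [Finset.sum_ite_eq' (range (N.natDegree + 1)) m]
  split_ifs with h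
  · rfl
  · rw [Finset.mem_range, not_lt] at h
    rw [coeff_eq_zero_of_natDegree_lt (by omega)]; simp

theorem re_add_im (N : ℂ[X]) :
    (reP N).map Complex.ofRealHom + C Complex.I * (imP N).map Complex.ofRealHom = N := by
  ext m
  simp only [coeff_add, coeff_map, coeff_C_mul, coeff_reP, coeff_imP, Complex.ofRealHom_eq_coe]
  rw [mul_comm]
  exact Complex.re_add_im _

theorem eval_ofReal (N : ℂ[X]) (x : ℝ) :
    N.eval (x : ℂ) = (((reP N).eval x : ℝ) : ℂ) + Complex.I * (((imP N).eval x : ℝ) : ℂ) := by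
  conv_lhs => rw [← re_add_im N]
  have h : ∀ p : ℝ[X], (p.map Complex.ofRealHom).eval (x : ℂ) = ((p.eval x : ℝ) : ℂ) := by
    intro p
    have := Polynomial.eval_map_apply (p := p) Complex.ofRealHom x
    simpa using this
  rw [eval_add, eval_mul, eval_C, h, h]

theorem re_eval_ofReal (N : ℂ[X]) (x : ℝ) : (N.eval (x : ℂ)).re = (reP N).eval x := by
  rw [eval_ofReal]; simp

theorem im_eval_ofReal (N : ℂ[X]) (x : ℝ) : (N.eval (x : ℂ)).im = (imP N).eval x := by
  rw [eval_ofReal]; simp

theorem reP_derivative (N : ℂ[X]) : reP (derivative N) = derivative (reP N) := by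
  ext m
  rw [coeff_reP, coeff_derivative, coeff_derivative, coeff_reP]
  have : ((m : ℂ) + 1) = (((m : ℝ) + 1 : ℝ) : ℂ) := by push_cast; ring
  rw [this, Complex.re_mul_ofReal]

theorem imP_derivative (N : ℂ[X]) : imP (derivative N) = derivative (imP N) := by
  ext m
  rw [coeff_imP, coeff_derivative, coeff_derivative, coeff_imP]
  have : ((m : ℂ) + 1) = (((m : ℝ) + 1 : ℝ) : ℂ) := by push_cast; ring
  rw [this, Complex.im_mul_ofReal]

/-- the Wronskian is negative on the real axis -/
theorem wronskian_neg (N : ℂ[X]) (hd : 0 < N.natDegree) (hr : ∀ x : ℂ, N.eval x = 0 → x.im < 0) (x : ℝ) :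
    (reP N).eval x * (derivative (imP N)).eval x - (imP N).eval x * (derivative (reP N)).eval x < 0 := by
  have hN0 : N ≠ 0 := by rintro rfl; simp at hd
  have hx : N.eval (x : ℂ) ≠ 0 := by
    intro h
    have := hr _ h
    simp at this
  have hs := (IsAlgClosed.splits N).eval_derivative_div_eval_of_ne_zero hx
  have hcard : 0 < N.roots.card := by
    rw [← (IsAlgClosed.splits N).natDegree_eq_card_roots]; exact hd
  -- the imaginary part of the sum
  have key : ∀ s : Multiset ℂ, (∀ r ∈ s, r.im < 0) → 0 < s.card →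
      ((s.map fun r => 1 / ((x : ℂ) - r)).sum).im < 0 := by
    intro s
    induction s using Multiset.induction_on with
    | empty => intro _ h; simp at h
    | cons r s ih =>
      intro hs _
      rw [Multiset.map_cons, Multiset.sum_cons, Complex.add_im]
      have h1 : (1 / ((x : ℂ) - r)).im < 0 := by
        have hr' := hs r (Multiset.mem_cons_self r s)
        rw [one_div, Complex.inv_im, Complex.sub_im, Complex.ofReal_im]
        have hne : (x : ℂ) - r ≠ 0 := by
          intro h
          have := congrArg Complex.im h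
          simp at this
          linarith
        have hp := Complex.normSq_pos.2 hne
        apply div_neg_of_neg_of_pos _ hp
        linarith
      rcases Nat.eq_zero_or_pos s.card with h0 | h0
      · have : s = 0 := Multiset.card_eq_zero.1 h0
        subst this
        simpa using h1
      · have := ih (fun r' hr' => hs r' (Multiset.mem_cons_of_mem hr')) h0
        linarith
  have h2 := key N.roots (fun r hr' => hr r (Polynomial.isRoot_of_mem_roots hr')) hcard
  rw [← hs] at h2
  -- Im (N'/N) = Im (conj N * N') / |N|^2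
  have h3 : ((derivative N).eval (x : ℂ) / N.eval (x : ℂ)).im
      = ((reP N).eval x * (derivative (imP N)).eval x - (imP N).eval x * (derivative (reP N)).eval x)
        / Complex.normSq (N.eval (x : ℂ)) := by
    rw [Complex.div_im, re_eval_ofReal, im_eval_ofReal, re_eval_ofReal, im_eval_ofReal, reP_derivative, imP_derivative]
    ring
  rw [h3] at h2
  have hp := Complex.normSq_pos.2 hx
  by_contra hcon
  push Not at hcon
  have := div_nonneg hcon hp.le
  linarith

theorem wronskian_ofReal_neg_div (R I : ℝ[X]) (hW : ∀ x : ℝ, R.eval x * (derivative I).eval x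
    - I.eval x * (derivative R).eval x < 0) (s : Set ℝ) (hs : Convex ℝ s) (h0 : ∀ x ∈ s, R.eval x ≠ 0) :
    StrictAntiOn (fun x => I.eval x / R.eval x) s := by
  apply strictAntiOn_of_deriv_neg hs
  · apply ContinuousOn.div I.continuous.continuousOn R.continuous.continuousOn h0
  · intro x hx
    have hx' := interior_subset hx
    have h1 : HasDerivAt (fun x => I.eval x / R.eval x)
        (((derivative I).eval x * R.eval x - I.eval x * (derivative R).eval x) / (R.eval x) ^ 2) x :=
      (I.hasDerivAt x).div (R.hasDerivAt x) (h0 x hx')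
    rw [h1.deriv]
    apply div_neg_of_neg_of_pos
    · have := hW x; nlinarith
    · have := h0 x hx'
      positivity

end Pool.Agent.Lib.MP4cd976.K
end

section
/-!
# MP_4cd976_an, block K, module SLI (part 2): the real slice has a zero in every loop
-/
set_option autoImplicit false

open Finset Polynomial Filter Topology

namespace Pool.Agent.Lib.MP4cd976.K

/-- the `j`-th loop: between the nodes `a_j, b_j` and outside `[a_(j-1), b_(j-1)]` -/
def Loop {k : ℕ} (a b : Fin k → ℝ) (j : ℕ) (x : ℝ) : Prop :=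
  (∀ i : Fin k, j ≤ (i : ℕ) → a i < x ∧ x < b i) ∧ (∀ i : Fin k, (i : ℕ) < j → x < a i ∨ b i < x)

/-- a real polynomial `R` with a companion `I` of negative Wronskian, with `I/R` equal at `a_j`, `b_j` and with equal
limits at infinity, has a zero in every loop -/
theorem exists_zero_loop {k : ℕ} (a b : Fin k → ℝ) (hn : Nest a b) (R I : ℝ[X])
    (hW : ∀ x : ℝ, R.eval x * (derivative I).eval x - I.eval x * (derivative R).eval x < 0)
    (hdeg : I.natDegree ≤ R.natDegree) (hR : R ≠ 0)
    (ha : ∀ j, R.eval (a j) ≠ 0) (hb : ∀ j, R.eval (b j) ≠ 0)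
    (hab : ∀ j, I.eval (a j) / R.eval (a j) = I.eval (b j) / R.eval (b j)) (j : ℕ) (hj : j ≤ k) :
    ∃ s : ℝ, R.eval s = 0 ∧ Loop a b j s := by
  by_contra hcon
  push Not at hcon
  have hmono := wronskian_ofReal_neg_div R I hW
  -- limits at infinity
  obtain ⟨κ, hκ1, hκ2⟩ : ∃ κ : ℝ, Tendsto (fun x => I.eval x / R.eval x) atTop (𝓝 κ) ∧
      Tendsto (fun x => I.eval x / R.eval x) atBot (𝓝 κ) := by
    rcases Nat.lt_or_ge I.natDegree R.natDegree with h | h
    · have h' : I.degree < R.degree := degree_lt_degree h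
      exact ⟨0, div_tendsto_atTop_zero_of_degree_lt _ _ h', div_tendsto_atBot_zero_of_degree_lt _ _ h'⟩
    · by_cases hI : I = 0
      · subst hI
        exact ⟨0, by simp, by simp⟩
      have h' : I.degree = R.degree := by
        rw [degree_eq_natDegree hI, degree_eq_natDegree hR, le_antisymm hdeg h]
      exact ⟨_, div_tendsto_atTop_leadingCoeff_div_of_degree_eq _ _ h',
        div_tendsto_atBot_leadingCoeff_div_of_degree_eq _ _ h'⟩
  -- strict monotonicity on the two unbounded rays
  have top : ∀ c : ℝ, (∀ x ∈ Set.Ici c, R.eval x ≠ 0) → κ < I.eval c / R.eval c := by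
    intro c hc
    have hm := hmono (Set.Ici c) (convex_Ici c) hc
    have h1 : κ ≤ I.eval (c + 1) / R.eval (c + 1) := by
      apply le_of_tendsto hκ1
      filter_upwards [eventually_ge_atTop (c + 1)] with x hx
      exact hm.antitoneOn (by simp) (by simp at hx ⊢; linarith) hx
    have h2 := hm (Set.mem_Ici.2 le_rfl) (by simp : c + 1 ∈ Set.Ici c) (by linarith)
    exact h1.trans_lt h2
  have bot : ∀ c : ℝ, (∀ x ∈ Set.Iic c, R.eval x ≠ 0) → I.eval c / R.eval c < κ := by
    intro c hc
    have hm := hmono (Set.Iic c) (convex_Iic c) hc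
    have h1 : I.eval (c - 1) / R.eval (c - 1) ≤ κ := by
      apply ge_of_tendsto hκ2
      filter_upwards [eventually_le_atBot (c - 1)] with x hx
      exact hm.antitoneOn (by simp at hx ⊢; linarith) (by simp) hx
    have h2 := hm (by simp : c - 1 ∈ Set.Iic c) (Set.mem_Iic.2 le_rfl) (by linarith)
    exact lt_of_lt_of_le h2 h1
  have mid : ∀ c d : ℝ, c < d → (∀ x ∈ Set.Icc c d, R.eval x ≠ 0) → I.eval d / R.eval d < I.eval c / R.eval c := by
    intro c d hcd hc
    exact hmono (Set.Icc c d) (convex_Icc c d) hc (Set.left_mem_Icc.2 hcd.le) (Set.right_mem_Icc.2 hcd.le) hcd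
  rcases Nat.lt_or_ge j k with hjk | hjk
  · -- there is a pair `j`
    set jj : Fin k := ⟨j, hjk⟩ with hjj
    rcases Nat.eq_zero_or_pos j with h0 | h0
    · -- loop 0
      have h := mid (a jj) (b jj) (hn.lt _ _) (by
        intro x hx hx0
        rcases eq_or_lt_of_le hx.1 with h1 | h1
        · exact ha jj (h1 ▸ hx0)
        rcases eq_or_lt_of_le hx.2 with h2 | h2
        · exact hb jj (h2 ▸ hx0)
        refine hcon x hx0 ⟨fun i hi => ⟨?_, ?_⟩, fun i hi => absurd hi (by omega)⟩
        · exact lt_of_le_of_lt (hn.anti.antitone (Fin.le_def.2 (by simpa [hjj] using hi))) h1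
        · exact lt_of_lt_of_le h2 (hn.mono.monotone (Fin.le_def.2 (by simpa [hjj] using hi))))
      rw [hab jj] at h
      exact lt_irrefl _ h
    · -- loop j, 0 < j < k
      set jm : Fin k := ⟨j - 1, by omega⟩ with hjm
      have hlt : jm < jj := Fin.lt_def.2 (by simp [hjj, hjm]; omega)
      have h1 := mid (a jj) (a jm) (hn.anti hlt) (by
        intro x hx hx0
        rcases eq_or_lt_of_le hx.1 with h1 | h1
        · exact ha jj (h1 ▸ hx0)
        rcases eq_or_lt_of_le hx.2 with h2 | h2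
        · exact ha jm (h2 ▸ hx0)
        refine hcon x hx0 ⟨fun i hi => ⟨?_, ?_⟩, fun i hi => Or.inl ?_⟩
        · exact lt_of_le_of_lt (hn.anti.antitone (Fin.le_def.2 (by simpa [hjj] using hi))) h1
        · exact h2.trans (hn.lt _ _)
        · exact lt_of_lt_of_le h2 (hn.anti.antitone (Fin.le_def.2 (by simp [hjm]; omega))))
      have h2 := mid (b jm) (b jj) (hn.mono hlt) (by
        intro x hx hx0
        rcases eq_or_lt_of_le hx.1 with h1 | h1
        · exact hb jm (h1 ▸ hx0)
        rcases eq_or_lt_of_le hx.2 with h2 | h2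
        · exact hb jj (h2 ▸ hx0)
        refine hcon x hx0 ⟨fun i hi => ⟨?_, ?_⟩, fun i hi => Or.inr ?_⟩
        · exact (hn.lt _ _).trans h1
        · exact lt_of_lt_of_le h2 (hn.mono.monotone (Fin.le_def.2 (by simpa [hjj] using hi)))
        · exact lt_of_le_of_lt (hn.mono.monotone (Fin.le_def.2 (by simp [hjm]; omega))) h1)
      rw [hab jm] at h1
      rw [hab jj] at h1
      exact lt_irrefl _ (h1.trans h2)
  · have hjk' : j = k := le_antisymm hj hjk
    rcases Nat.eq_zero_or_pos k with h0 | h0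
    · -- k = 0
      subst h0
      have hno : ∀ x, R.eval x ≠ 0 := fun x hx0 => hcon x hx0 ⟨fun i => i.elim0, fun i => i.elim0⟩
      exact lt_irrefl _ ((bot 0 fun x _ => hno x).trans (top 0 fun x _ => hno x))
    · set jm : Fin k := ⟨k - 1, by omega⟩ with hjm
      have h1 := bot (a jm) (by
        intro x hx hx0
        rcases eq_or_lt_of_le (Set.mem_Iic.1 hx) with h2 | h2
        · exact ha jm (h2 ▸ hx0)
        refine hcon x hx0 ⟨fun i hi => absurd i.2 (by omega), fun i hi => Or.inl ?_⟩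
        exact lt_of_lt_of_le h2 (hn.anti.antitone (Fin.le_def.2 (by simp [hjm]; omega))))
      have h2 := top (b jm) (by
        intro x hx hx0
        rcases eq_or_lt_of_le (Set.mem_Ici.1 hx) with h2 | h2
        · exact hb jm (h2 ▸ hx0)
        refine hcon x hx0 ⟨fun i hi => absurd i.2 (by omega), fun i hi => Or.inr ?_⟩
        exact lt_of_le_of_lt (hn.mono.monotone (Fin.le_def.2 (by simp [hjm]; omega))) h2)
      rw [hab jm] at h1
      exact lt_irrefl _ (h1.trans h2)

end Pool.Agent.Lib.MP4cd976.K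
end

section
/-!
# MP_4cd976_an, block K, module SLI (part 3): factorisation of a real slice
-/
set_option autoImplicit false

open Finset Polynomial Filter Topology

namespace Pool.Agent.Lib.MP4cd976.K

theorem sign_prod {k : ℕ} (a b : Fin k → ℝ) (s : Fin (k + 1) → ℝ) (hs : ∀ j : Fin (k + 1), Loop a b (j : ℕ) (s j)) (hn : Nest a b)
    (j : Fin k) :
    0 < (-1 : ℝ) ^ ((j : ℕ) + 1) * ((∏ i : Fin (k + 1), (a j - s i)) * (∏ i : Fin (k + 1), (b j - s i))) := by
  rw [← Finset.prod_mul_distrib]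
  have hc : (-1 : ℝ) ^ ((j : ℕ) + 1) = ∏ i : Fin (k + 1), (if (i : ℕ) ≤ (j : ℕ) then (-1 : ℝ) else 1) := by
    rw [Finset.prod_ite]
    simp only [Finset.prod_const, one_pow, mul_one]
    congr 1
    have : (Finset.univ.filter fun i : Fin (k + 1) => (i : ℕ) ≤ (j : ℕ)) = Finset.Iic (j.castSucc) := by
      ext i; simp [Fin.le_def]
    rw [this, Fin.card_Iic]; simp
  rw [hc, ← Finset.prod_mul_distrib]
  apply Finset.prod_pos
  intro i _
  split_ifs with h
  · have := (hs i).1 j h
    have h1 : a j - s i < 0 := by linarith [this.1]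
    have h2 : 0 < b j - s i := by linarith [this.2]
    nlinarith
  · push Not at h
    have hab := hn.lt j j
    rcases (hs i).2 j h with h1 | h1
    · have h2 : 0 < a j - s i := by linarith
      have h3 : 0 < b j - s i := by linarith
      have := mul_pos h2 h3; linarith
    · have h2 : a j - s i < 0 := by linarith
      have h3 : b j - s i < 0 := by linarith
      nlinarith

theorem loop_inj {k : ℕ} (a b : Fin k → ℝ) (s : Fin (k + 1) → ℝ) (hs : ∀ j : Fin (k + 1), Loop a b (j : ℕ) (s j)) :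
    Function.Injective s := by
  have key : ∀ i j : Fin (k + 1), i < j → s i ≠ s j := by
    intro i j hij h
    have hi : (i : ℕ) < k := by
      have := Fin.lt_def.1 hij
      omega
    have h1 := (hs i).1 ⟨i, hi⟩ le_rfl
    have h2 := (hs j).2 ⟨i, hi⟩ (Fin.lt_def.1 hij)
    rw [h] at h1
    rcases h2 with h2 | h2
    · exact absurd h1.1 (not_lt.2 h2.le)
    · exact absurd h1.2 (not_lt.2 h2.le)
  intro i j h
  rcases lt_trichotomy i j with h1 | h1 | h1
  · exact absurd h (key i j h1)
  · exact h1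
  · exact absurd h.symm (key j i h1)

/-- `Delta'(a_j) = (a_j - b_j) prod_{i ≠ j} (a_j - a_i)(a_j - b_i)` -/
theorem Dl_deriv_a {k : ℕ} (a b : Fin k → ℝ) (j : Fin k) :
    (derivative (Dl a b)).eval (a j) = (a j - b j) * ∏ i ∈ univ.erase j, ((a j - a i) * (a j - b i)) := by
  rw [Dl, derivative_prod_finset, eval_finsetSum, Finset.sum_eq_single j]
  · simp only [eval_mul, eval_prod, eval_sub, eval_X, eval_C, derivative_mul, derivative_sub, derivative_X,
      derivative_C, eval_add, sub_zero, eval_one, sub_self]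
    ring
  · intro i _ hij
    rw [eval_mul, eval_prod]
    rw [Finset.prod_eq_zero (i := j)]
    · simp
    · simp [hij.symm]
    · simp
  · intro h; exact absurd (Finset.mem_univ j) h

theorem Dl_deriv_b {k : ℕ} (a b : Fin k → ℝ) (j : Fin k) :
    (derivative (Dl a b)).eval (b j) = (b j - a j) * ∏ i ∈ univ.erase j, ((b j - a i) * (b j - b i)) := by
  rw [Dl, derivative_prod_finset, eval_finsetSum, Finset.sum_eq_single j]
  · simp only [eval_mul, eval_prod, eval_sub, eval_X, eval_C, derivative_mul, derivative_sub, derivative_X,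
      derivative_C, eval_add, sub_zero, eval_one, sub_self]
    ring
  · intro i _ hij
    rw [eval_mul, eval_prod]
    rw [Finset.prod_eq_zero (i := j)]
    · simp
    · simp [hij.symm]
    · simp
  · intro h; exact absurd (Finset.mem_univ j) h

theorem Dl_sign {k : ℕ} (a b : Fin k → ℝ) (hn : Nest a b) (j : Fin k) :
    (derivative (Dl a b)).eval (a j) * (derivative (Dl a b)).eval (b j) < 0 := by
  rw [Dl_deriv_a, Dl_deriv_b]
  have h : (a j - b j) * (∏ i ∈ univ.erase j, ((a j - a i) * (a j - b i)))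
      * ((b j - a j) * ∏ i ∈ univ.erase j, ((b j - a i) * (b j - b i)))
      = ((a j - b j) * (b j - a j)) * ∏ i ∈ univ.erase j, (((a j - a i) * (a j - b i)) * ((b j - a i) * (b j - b i))) := by
    rw [Finset.prod_mul_distrib (f := fun i => (a j - a i) * (a j - b i)) (g := fun i => (b j - a i) * (b j - b i))]
    ring
  rw [h]
  have hab := hn.lt j j
  have h1 : (a j - b j) * (b j - a j) < 0 := by nlinarith
  apply mul_neg_of_neg_of_pos h1
  apply Finset.prod_pos
  intro i hi
  have hij : i ≠ j := Finset.ne_of_mem_erase hi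
  rcases lt_or_gt_of_ne hij with h2 | h2
  · -- i < j
    have e1 : a j - a i < 0 := by linarith [hn.anti h2]
    have e2 : a j - b i < 0 := by linarith [hn.lt j i]
    have e3 : 0 < b j - a i := by linarith [hn.lt i j]
    have e4 : 0 < b j - b i := by linarith [hn.mono h2]
    exact mul_pos (mul_pos_of_neg_of_neg e1 e2) (mul_pos e3 e4)
  · have e1 : 0 < a j - a i := by linarith [hn.anti h2]
    have e2 : a j - b i < 0 := by linarith [hn.lt j i]
    have e3 : 0 < b j - a i := by linarith [hn.lt i j]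
    have e4 : b j - b i < 0 := by linarith [hn.mono h2]
    exact mul_pos_of_neg_of_neg (mul_neg_of_pos_of_neg e1 e2) (mul_neg_of_pos_of_neg e3 e4)

/-- **SLI** -/
theorem slice_factor {k : ℕ} (a b : Fin k → ℝ) (hn : Nest a b) (R I : ℝ[X])
    (hW : ∀ x : ℝ, R.eval x * (derivative I).eval x - I.eval x * (derivative R).eval x < 0)
    (hdeg : I.natDegree ≤ R.natDegree) (hRd : R.natDegree = 2 * k + 2)
    (ha : ∀ j, R.eval (a j) ≠ 0) (hb : ∀ j, R.eval (b j) ≠ 0)
    (hab : ∀ j, I.eval (a j) / R.eval (a j) = I.eval (b j) / R.eval (b j))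
    (htie : ∀ j, R.eval (a j) * (derivative (Dl a b)).eval (b j) + R.eval (b j) * (derivative (Dl a b)).eval (a j) = 0) :
    ∃ p q : ℝ[X], R = p * q ∧ p.natDegree = k + 1 ∧ q.natDegree = k + 1 ∧
      (∀ j : Fin k, 0 < (-1) ^ ((j : ℕ) + 1) * (p.eval (a j) * p.eval (b j))) ∧
      (∀ j : Fin k, 0 < (-1) ^ ((j : ℕ) + 1) * (q.eval (a j) * q.eval (b j))) := by
  have hR : R ≠ 0 := by
    rintro rfl
    simp at hRd
  have hex : ∀ j : Fin (k + 1), ∃ s : ℝ, R.eval s = 0 ∧ Loop a b (j : ℕ) s := fun j =>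
    exists_zero_loop a b hn R I hW hdeg hR ha hb hab j (by omega)
  choose s hs0 hsL using hex
  set p : ℝ[X] := ∏ i : Fin (k + 1), (X - C (s i)) with hp
  have hpm : p.Monic := monic_prod_of_monic _ _ fun i _ => monic_X_sub_C _
  have hpd : p.natDegree = k + 1 := by
    rw [hp, natDegree_prod_of_monic _ _ fun i _ => monic_X_sub_C _]; simp
  have hdvd : p ∣ R := by
    apply Finset.prod_dvd_of_coprime
    · intro i _ j _ hij
      exact pairwise_coprime_X_sub_C (loop_inj a b s hsL) hij
    · intro i _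
      exact dvd_iff_isRoot.2 (hs0 i)
  obtain ⟨q, hq⟩ := hdvd
  have hq0 : q ≠ 0 := by
    rintro rfl; rw [mul_zero] at hq; exact hR hq
  have hqd : q.natDegree = k + 1 := by
    have := congrArg natDegree hq
    rw [natDegree_mul hpm.ne_zero hq0, hRd, hpd] at this
    omega
  have hpe : ∀ x : ℝ, p.eval x = ∏ i : Fin (k + 1), (x - s i) := by
    intro x
    rw [hp, eval_prod]; simp
  have hpS : ∀ j : Fin k, 0 < (-1 : ℝ) ^ ((j : ℕ) + 1) * (p.eval (a j) * p.eval (b j)) := by
    intro j
    rw [hpe, hpe]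
    exact sign_prod a b s hsL hn j
  refine ⟨p, q, hq, hpd, hqd, hpS, ?_⟩
  intro j
  -- sign of R(a_j) R(b_j)
  have hRR : 0 < R.eval (a j) * R.eval (b j) := by
    have h1 := htie j
    have h2 := Dl_sign a b hn j
    set A := (derivative (Dl a b)).eval (a j)
    set B := (derivative (Dl a b)).eval (b j)
    have h3 : R.eval (a j) * R.eval (b j) * A ^ 2 = - (R.eval (a j)) ^ 2 * (A * B) := by
      have : R.eval (b j) * A = - (R.eval (a j) * B) := by linarith
      calc R.eval (a j) * R.eval (b j) * A ^ 2 = R.eval (a j) * A * (R.eval (b j) * A) := by ring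
        _ = _ := by rw [this]; ring
    have h4 : 0 < (R.eval (a j)) ^ 2 := by have := ha j; positivity
    have h5 : 0 < - (R.eval (a j)) ^ 2 * (A * B) := by nlinarith
    have hA : A ≠ 0 := by
      intro h; rw [h] at h2; simp at h2
    have hA2 : 0 < A ^ 2 := by positivity
    rw [← h3] at h5
    exact (pos_iff_pos_of_mul_pos h5).2 hA2
  have hqq : (R.eval (a j) * R.eval (b j)) = (p.eval (a j) * p.eval (b j)) * (q.eval (a j) * q.eval (b j)) := by
    rw [hq, eval_mul, eval_mul]; ring
  rw [hqq] at hRR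
  have h6 := hpS j
  rcases neg_one_pow_eq_or ℝ ((j : ℕ) + 1) with h | h
  · rw [h, one_mul] at h6 ⊢
    exact (pos_iff_pos_of_mul_pos hRR).1 h6
  · rw [h] at h6 ⊢
    have h7 : p.eval (a j) * p.eval (b j) < 0 := by linarith
    have h8 : q.eval (a j) * q.eval (b j) < 0 := by
      by_contra hc
      push Not at hc
      nlinarith
    linarith

end Pool.Agent.Lib.MP4cd976.K
end

section
/-!
# MP_4cd976_an, block K, module TIE: `(**)` for every slice of a tied numerator, from `SpecFIN`
-/
set_option autoImplicit false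

open Finset Polynomial Filter Topology

namespace Pool.Agent.Lib.MP4cd976.K

theorem norm_prod_lt (z : ℂ) (hz : 0 < z.im) (s : Multiset ℂ) (hs : ∀ r ∈ s, r.im < 0) (h0 : s ≠ 0) :
    (s.map fun r => ‖(starRingEnd ℂ) z - r‖).prod < (s.map fun r => ‖z - r‖).prod := by
  have h1 : ∀ r : ℂ, r.im < 0 → ‖(starRingEnd ℂ) z - r‖ < ‖z - r‖ := by
    intro r hr
    rw [← sq_lt_sq₀ (norm_nonneg _) (norm_nonneg _), ← Complex.normSq_eq_norm_sq, ← Complex.normSq_eq_norm_sq,
      Complex.normSq_apply, Complex.normSq_apply]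
    simp only [Complex.sub_re, Complex.sub_im, Complex.conj_re, Complex.conj_im]
    nlinarith
  have h2 : ∀ s : Multiset ℂ, (∀ r ∈ s, r.im < 0) →
      0 < (s.map fun r => ‖z - r‖).prod ∧ 0 ≤ (s.map fun r => ‖(starRingEnd ℂ) z - r‖).prod ∧
      (s.map fun r => ‖(starRingEnd ℂ) z - r‖).prod ≤ (s.map fun r => ‖z - r‖).prod := by
    intro s
    induction s using Multiset.induction_on with
    | empty => intro _; simp
    | cons r s ih =>
      intro hs
      obtain ⟨i1, i2, i3⟩ := ih fun r' hr' => hs r' (Multiset.mem_cons_of_mem hr')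
      have hr := h1 r (hs r (Multiset.mem_cons_self r s))
      have hp : 0 < ‖z - r‖ := (norm_nonneg _).trans_lt hr
      rw [Multiset.map_cons, Multiset.prod_cons, Multiset.map_cons, Multiset.prod_cons]
      exact ⟨mul_pos hp i1, mul_nonneg (norm_nonneg _) i2, mul_le_mul hr.le i3 i2 hp.le⟩
  obtain ⟨r, hr⟩ := Multiset.exists_mem_of_ne_zero h0
  obtain ⟨t, rfl⟩ := Multiset.exists_cons_of_mem hr
  obtain ⟨i1, i2, i3⟩ := h2 t fun r' hr' => hs r' (Multiset.mem_cons_of_mem hr')
  have hr := h1 r (hs r (Multiset.mem_cons_self r t))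
  rw [Multiset.map_cons, Multiset.prod_cons, Multiset.map_cons, Multiset.prod_cons]
  calc ‖(starRingEnd ℂ) z - r‖ * (t.map fun r => ‖(starRingEnd ℂ) z - r‖).prod
      ≤ ‖(starRingEnd ℂ) z - r‖ * (t.map fun r => ‖z - r‖).prod := mul_le_mul_of_nonneg_left i3 (norm_nonneg _)
    _ < ‖z - r‖ * (t.map fun r => ‖z - r‖).prod := mul_lt_mul_of_pos_right hr i1

theorem norm_multiset_prod (s : Multiset ℂ) : ‖s.prod‖ = (s.map fun r => ‖r‖).prod := by
  induction s using Multiset.induction_on with
  | empty => simp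
  | cons r s ih => rw [Multiset.prod_cons, norm_mul, ih, Multiset.map_cons, Multiset.prod_cons]

/-- Hermite-Biehler -/
theorem herm_bie (N : ℂ[X]) (hd : 0 < N.natDegree) (hr : ∀ x : ℂ, N.eval x = 0 → x.im < 0) (z : ℂ) (hz : 0 < z.im) :
    ‖N.eval (starRingEnd ℂ z)‖ < ‖N.eval z‖ := by
  have hN0 : N ≠ 0 := by rintro rfl; simp at hd
  have hs := IsAlgClosed.splits N
  have h0 : N.roots ≠ 0 := by
    intro h
    have := hs.natDegree_eq_card_roots
    rw [h] at this; simp at this; omega
  have e : ∀ x : ℂ, ‖N.eval x‖ = ‖N.leadingCoeff‖ * (N.roots.map fun r => ‖x - r‖).prod := by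
    intro x
    rw [hs.eval_eq_prod_roots x, norm_mul, norm_multiset_prod, Multiset.map_map]
    rfl
  rw [e, e]
  apply mul_lt_mul_of_pos_left _ (norm_pos_iff.2 (leadingCoeff_ne_zero.2 hN0))
  exact norm_prod_lt z hz N.roots (fun r hr' => hr r (Polynomial.isRoot_of_mem_roots hr')) h0

theorem star_eval (N : ℂ[X]) (z : ℂ) : (star N).eval z = starRingEnd ℂ (N.eval (starRingEnd ℂ z)) := by
  have h := Polynomial.eval_map_apply (p := N) (starRingEnd ℂ) (starRingEnd ℂ z)
  rw [star]
  rw [← h]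
  simp

theorem M_ne_zero (N : ℂ[X]) (hd : 0 < N.natDegree) (hr : ∀ x : ℂ, N.eval x = 0 → x.im < 0) (u : ℂ) (hu : ‖u‖ = 1)
    (z : ℂ) (hz : 0 < z.im) : (C u * N + C (starRingEnd ℂ u) * star N).eval z ≠ 0 := by
  intro h
  rw [eval_add, eval_mul, eval_mul, eval_C, eval_C, star_eval] at h
  have h1 := herm_bie N hd hr z hz
  have h2 : u * N.eval z = - (starRingEnd ℂ u * starRingEnd ℂ (N.eval (starRingEnd ℂ z))) := by
    linear_combination h
  have h3 := congrArg norm h2
  rw [norm_neg, norm_mul, norm_mul, RCLike.norm_conj, RCLike.norm_conj, hu, one_mul, one_mul] at h3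
  linarith

theorem M_eq (N : ℂ[X]) (u : ℂ) :
    C u * N + C (starRingEnd ℂ u) * star N = C 2 * (reP (C u * N)).map Complex.ofRealHom := by
  ext m
  rw [coeff_add, coeff_C_mul, coeff_C_mul, coeff_C_mul, coeff_map, coeff_reP, star, coeff_map, coeff_C_mul]
  have h := Complex.add_conj (u * N.coeff m)
  rw [map_mul] at h
  rw [h]
  simp

/-- the bound for the good units -/
theorem tie_good (hFIN : SpecFIN) {k : ℕ} (a b : Fin k → ℝ) (hn : Nest a b) (N : ℂ[X]) (hT : Tied a b N) (u : ℂ)
    (hu : ‖u‖ = 1) (z : ℂ) (hz : 0 < z.im) (hl : (u * N.leadingCoeff).re ≠ 0)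
    (hga : ∀ j, (u * N.eval (a j : ℂ)).re ≠ 0) (hgb : ∀ j, (u * N.eval (b j : ℂ)).re ≠ 0) :
    ‖1 + Complex.I * (z.im : ℂ) *
      ((derivative (C u * N + C (starRingEnd ℂ u) * star N)).eval z / (C u * N + C (starRingEnd ℂ u) * star N).eval z
        - aeval z (derivative (Dl a b)) / aeval z (Dl a b))‖ ≤ 3 := by
  have hu0 : u ≠ 0 := by rintro rfl; simp at hu
  have hNu : (C u * N).natDegree = 2 * k + 2 := by rw [natDegree_C_mul hu0, hT.deg]
  set R := reP (C u * N) with hR
  set I := imP (C u * N) with hI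
  have hRe : ∀ x : ℝ, R.eval x = (u * N.eval (x : ℂ)).re := by
    intro x; rw [hR, ← re_eval_ofReal, eval_mul, eval_C]
  have hIe : ∀ x : ℝ, I.eval x = (u * N.eval (x : ℂ)).im := by
    intro x; rw [hI, ← im_eval_ofReal, eval_mul, eval_C]
  have hRd : R.natDegree = 2 * k + 2 := by
    apply natDegree_eq_of_le_of_coeff_ne_zero
    · rw [natDegree_le_iff_coeff_eq_zero]
      intro m hm
      rw [hR, coeff_reP, coeff_eq_zero_of_natDegree_lt (by rw [hNu]; exact hm)]; simp
    · rw [hR, coeff_reP, coeff_C_mul]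
      have : N.coeff (2 * k + 2) = N.leadingCoeff := by rw [leadingCoeff, hT.deg]
      rw [this]; exact hl
  have hId : I.natDegree ≤ R.natDegree := by
    rw [hRd, natDegree_le_iff_coeff_eq_zero]
    intro m hm
    rw [hI, coeff_imP, coeff_eq_zero_of_natDegree_lt (by rw [hNu]; exact hm)]; simp
  have hW := wronskian_neg (C u * N) (by rw [hNu]; omega) (by
    intro x hx
    rw [eval_mul, eval_C] at hx
    rcases mul_eq_zero.1 hx with h | h
    · exact absurd h hu0
    · exact hT.root x h)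
  rw [← hR, ← hI] at hW
  -- ties
  have hre : ∀ j, R.eval (a j) * (derivative (Dl a b)).eval (b j) + R.eval (b j) * (derivative (Dl a b)).eval (a j) = 0 := by
    intro j
    have h := congrArg (fun w => (u * w).re) (hT.tie j)
    simp only [mul_add, mul_zero, Complex.zero_re] at h
    rw [← mul_assoc, ← mul_assoc, Complex.add_re, Complex.re_mul_ofReal, Complex.re_mul_ofReal] at h
    rw [hRe, hRe]; exact h
  have him : ∀ j, I.eval (a j) * (derivative (Dl a b)).eval (b j) + I.eval (b j) * (derivative (Dl a b)).eval (a j) = 0 := by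
    intro j
    have h := congrArg (fun w => (u * w).im) (hT.tie j)
    simp only [mul_add, mul_zero, Complex.zero_im] at h
    rw [← mul_assoc, ← mul_assoc, Complex.add_im, Complex.im_mul_ofReal, Complex.im_mul_ofReal] at h
    rw [hIe, hIe]; exact h
  have hA : ∀ j, R.eval (a j) ≠ 0 := fun j => by rw [hRe]; exact hga j
  have hB : ∀ j, R.eval (b j) ≠ 0 := fun j => by rw [hRe]; exact hgb j
  have hab : ∀ j, I.eval (a j) / R.eval (a j) = I.eval (b j) / R.eval (b j) := by
    intro j
    have h1 := hre j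
    have h2 := him j
    have h3 := Dl_sign a b hn j
    have hD1 : (derivative (Dl a b)).eval (a j) ≠ 0 := by
      intro h; rw [h] at h3; simp at h3
    have hD2 : (derivative (Dl a b)).eval (b j) ≠ 0 := by
      intro h; rw [h] at h3; simp at h3
    rw [div_eq_div_iff (hA j) (hB j)]
    have h4 : (I.eval (a j) * R.eval (b j) - I.eval (b j) * R.eval (a j))
        * ((derivative (Dl a b)).eval (a j) * (derivative (Dl a b)).eval (b j)) = 0 := by
      linear_combination (R.eval (b j) * (derivative (Dl a b)).eval (a j)) * h2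
        - (I.eval (b j) * (derivative (Dl a b)).eval (a j)) * h1
    rcases mul_eq_zero.1 h4 with h | h
    · linarith
    · exact absurd h (mul_ne_zero hD1 hD2)
  obtain ⟨p, q, hpq, hp, hq, hps, hqs⟩ := slice_factor a b hn R I hW hId hRd hA hB hab hre
  have hR0 : R ≠ 0 := by intro h; rw [h] at hRd; simp at hRd
  have hp0 : p ≠ 0 := by rintro rfl; rw [zero_mul] at hpq; exact hR0 hpq
  have hq0 : q ≠ 0 := by rintro rfl; rw [mul_zero] at hpq; exact hR0 hpq
  obtain ⟨hpz, hqz, hfin⟩ := hFIN k a b hn p q hp.le hq.le hp0 hq0 hps hqs (by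
    intro j; rw [← hpq]; exact hre j) z hz
  have hquot : (derivative (C u * N + C (starRingEnd ℂ u) * star N)).eval z
      / (C u * N + C (starRingEnd ℂ u) * star N).eval z
      = aeval z (derivative p) / aeval z p + aeval z (derivative q) / aeval z q := by
    rw [M_eq, ← hR, derivative_C_mul, derivative_map, eval_mul, eval_mul, eval_C, hpq]
    have hev : ∀ f : ℝ[X], (f.map Complex.ofRealHom).eval z = aeval z f := by
      intro f
      rw [aeval_def, eval₂_eq_eval_map]; rfl
    rw [hev, hev, derivative_mul, map_add, map_mul, map_mul, map_mul]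
    rw [mul_div_mul_left _ _ (two_ne_zero), add_div, mul_div_mul_right _ _ hqz, mul_div_mul_left _ _ hpz]
  rw [hquot]
  exact hfin

theorem countable_re_zero (c : ℂ) (hc : c ≠ 0) :
    {t : ℝ | (Complex.exp ((t : ℂ) * Complex.I) * c).re = 0}.Countable := by
  apply (Set.countable_range (fun n : ℤ => (2 * (n : ℝ) + 1) * Real.pi / 2 - c.arg)).mono
  intro t ht
  simp only [Set.mem_ofPred_eq] at ht
  have h1 : Complex.exp ((t : ℂ) * Complex.I) * c = (‖c‖ : ℂ) * Complex.exp (((t + c.arg : ℝ) : ℂ) * Complex.I) := by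
    conv_lhs => rw [← Complex.norm_mul_exp_arg_mul_I c]
    rw [Complex.ofReal_add, add_mul, Complex.exp_add]
    ring
  rw [h1, Complex.re_ofReal_mul, Complex.exp_ofReal_mul_I_re] at ht
  rcases mul_eq_zero.1 ht with h | h
  · exact absurd (norm_eq_zero.1 h) hc
  · obtain ⟨n, hn⟩ := Real.cos_eq_zero_iff.1 h
    exact ⟨n, by simp only; linarith⟩

/-- **TIE** -/
theorem specTIE (hFIN : SpecFIN) : SpecTIE := by
  intro k a b hn N hT u hu z hz
  have hd : 0 < N.natDegree := by rw [hT.deg]; omega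
  have hN0 : N ≠ 0 := by rintro rfl; simp at hd
  refine ⟨M_ne_zero N hd hT.root u hu z hz, ?_⟩
  -- the rotated units
  set v : ℝ → ℂ := fun t => Complex.exp ((t : ℂ) * Complex.I) * u with hv
  have hvn : ∀ t, ‖v t‖ = 1 := by
    intro t
    rw [hv]
    simp only [norm_mul, Complex.norm_exp_ofReal_mul_I, hu, mul_one]
  have hvc : Continuous v := by
    rw [hv]; fun_prop
  set Bad : Set ℝ := {t | (Complex.exp ((t : ℂ) * Complex.I) * (u * N.leadingCoeff)).re = 0} ∪
    ((⋃ j : Fin k, {t | (Complex.exp ((t : ℂ) * Complex.I) * (u * N.eval (a j : ℂ))).re = 0}) ∪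
     (⋃ j : Fin k, {t | (Complex.exp ((t : ℂ) * Complex.I) * (u * N.eval (b j : ℂ))).re = 0})) with hBad
  have hu0 : u ≠ 0 := by rintro rfl; simp at hu
  have hreal : ∀ x : ℝ, N.eval (x : ℂ) ≠ 0 := by
    intro x h
    have := hT.root _ h
    simp at this
  have hBc : Bad.Countable := by
    rw [hBad]
    refine (countable_re_zero _ (mul_ne_zero hu0 (leadingCoeff_ne_zero.2 hN0))).union (Set.Countable.union ?_ ?_)
    · exact Set.countable_iUnion fun j => countable_re_zero _ (mul_ne_zero hu0 (hreal _))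
    · exact Set.countable_iUnion fun j => countable_re_zero _ (mul_ne_zero hu0 (hreal _))
  have hdense : Dense Badᶜ := hBc.dense_compl ℝ
  set F : ℝ → ℝ := fun t => ‖1 + Complex.I * (z.im : ℂ) *
      ((derivative (C (v t) * N + C (starRingEnd ℂ (v t)) * star N)).eval z
        / (C (v t) * N + C (starRingEnd ℂ (v t)) * star N).eval z
        - aeval z (derivative (Dl a b)) / aeval z (Dl a b))‖ with hF
  have hFc : Continuous F := by
    rw [hF]
    simp only [derivative_add, derivative_mul, derivative_C, zero_mul, zero_add, eval_add, eval_mul, eval_C]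
    have hcc : Continuous fun t => starRingEnd ℂ (v t) := Complex.continuous_conj.comp hvc
    have hne : ∀ t, v t * N.eval z + starRingEnd ℂ (v t) * (star N).eval z ≠ 0 := by
      intro t
      have := M_ne_zero N hd hT.root (v t) (hvn t) z hz
      simpa only [eval_add, eval_mul, eval_C] using this
    apply Continuous.norm
    apply Continuous.add continuous_const
    apply Continuous.mul continuous_const
    apply Continuous.sub _ continuous_const
    apply Continuous.div _ _ hne
    · exact (hvc.mul continuous_const).add (hcc.mul continuous_const)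
    · exact (hvc.mul continuous_const).add (hcc.mul continuous_const)
  have hgood : ∀ t ∈ Badᶜ, F t ≤ 3 := by
    intro t ht
    rw [hBad] at ht
    simp only [Set.mem_compl_iff, Set.mem_union, Set.mem_iUnion, Set.mem_ofPred_eq, not_or, not_exists] at ht
    obtain ⟨h1, h2, h3⟩ := ht
    apply tie_good hFIN a b hn N hT (v t) (hvn t) z hz
    · rw [hv]; simp only [mul_assoc]; exact h1
    · intro j; rw [hv]; simp only [mul_assoc]; exact h2 j
    · intro j; rw [hv]; simp only [mul_assoc]; exact h3 j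
  have hcl : IsClosed {t | F t ≤ 3} := isClosed_le hFc continuous_const
  have hall : (0 : ℝ) ∈ {t | F t ≤ 3} := by
    have h1 : closure Badᶜ ⊆ {t | F t ≤ 3} := hcl.closure_subset_iff.2 hgood
    exact h1 (hdense 0)
  have h0 : v 0 = u := by rw [hv]; simp
  simpa only [Set.mem_ofPred_eq, hF, h0] using hall

end Pool.Agent.Lib.MP4cd976.K
end

section
/-!
# MP_4cd976_an, block K, module TBF: `(**)` in partial fraction form
-/
set_option autoImplicit false

open Finset Polynomial Filter Topology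

namespace Pool.Agent.Lib.MP4cd976.K

/-- `Delta / (X - a_j)` over the complex numbers -/
noncomputable def Qa {k : ℕ} (a b : Fin k → ℝ) (j : Fin k) : ℂ[X] :=
  (X - C (b j : ℂ)) * ∏ i ∈ univ.erase j, ((X - C (a i : ℂ)) * (X - C (b i : ℂ)))

/-- `Delta / (X - b_j)` over the complex numbers -/
noncomputable def Qb {k : ℕ} (a b : Fin k → ℝ) (j : Fin k) : ℂ[X] :=
  (X - C (a j : ℂ)) * ∏ i ∈ univ.erase j, ((X - C (a i : ℂ)) * (X - C (b i : ℂ)))

/-- `Delta` over the complex numbers -/
noncomputable def DC {k : ℕ} (a b : Fin k → ℝ) : ℂ[X] := ∏ i : Fin k, ((X - C (a i : ℂ)) * (X - C (b i : ℂ)))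

/-- the numerator of `kappa (X + i)^2 + sum_j r_j (1/(X - a_j) - 1/(X - b_j))` -/
noncomputable def NN {k : ℕ} (κ : ℂ) (a b : Fin k → ℝ) (r : Fin k → ℂ) : ℂ[X] :=
  C κ * (X + C Complex.I) ^ 2 * DC a b + ∑ j : Fin k, C (r j) * (Qa a b j - Qb a b j)

theorem DC_eq_a {k : ℕ} (a b : Fin k → ℝ) (j : Fin k) : DC a b = (X - C (a j : ℂ)) * Qa a b j := by
  rw [DC, ← Finset.mul_prod_erase univ _ (Finset.mem_univ j), Qa]; ring

theorem DC_eq_b {k : ℕ} (a b : Fin k → ℝ) (j : Fin k) : DC a b = (X - C (b j : ℂ)) * Qb a b j := by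
  rw [DC, ← Finset.mul_prod_erase univ _ (Finset.mem_univ j), Qb]; ring

theorem DC_map {k : ℕ} (a b : Fin k → ℝ) : (Dl a b).map Complex.ofRealHom = DC a b := by
  rw [Dl, DC, Polynomial.map_prod]
  apply Finset.prod_congr rfl
  intro i _
  simp

theorem aeval_Dl {k : ℕ} (a b : Fin k → ℝ) (z : ℂ) : aeval z (Dl a b) = (DC a b).eval z := by
  rw [← DC_map, aeval_def, eval₂_eq_eval_map]; rfl

theorem aeval_Dl' {k : ℕ} (a b : Fin k → ℝ) (z : ℂ) : aeval z (derivative (Dl a b)) = (derivative (DC a b)).eval z := by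
  rw [← DC_map, derivative_map, aeval_def, eval₂_eq_eval_map]; rfl

theorem DC_monic {k : ℕ} (a b : Fin k → ℝ) : (DC a b).Monic :=
  monic_prod_of_monic _ _ fun _ _ => (monic_X_sub_C _).mul (monic_X_sub_C _)

theorem DC_natDegree {k : ℕ} (a b : Fin k → ℝ) : (DC a b).natDegree = 2 * k := by
  rw [DC, natDegree_prod_of_monic _ _ fun i _ => (monic_X_sub_C _).mul (monic_X_sub_C _)]
  simp only [(monic_X_sub_C _).natDegree_mul (monic_X_sub_C _), natDegree_X_sub_C]
  simp; ring

theorem erase_natDegree {k : ℕ} (a b : Fin k → ℝ) (j : Fin k) :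
    (∏ i ∈ univ.erase j, ((X - C (a i : ℂ)) * (X - C (b i : ℂ)))).natDegree = 2 * (k - 1) := by
  rw [natDegree_prod_of_monic _ _ fun i _ => (monic_X_sub_C _).mul (monic_X_sub_C _)]
  simp only [(monic_X_sub_C _).natDegree_mul (monic_X_sub_C _), natDegree_X_sub_C]
  simp; ring

theorem Qab_natDegree {k : ℕ} (a b : Fin k → ℝ) (j : Fin k) : (Qa a b j - Qb a b j).natDegree ≤ 2 * k := by
  have hk : 0 < k := j.pos
  have h1 : ∀ c : ℂ, ((X - C c) * ∏ i ∈ univ.erase j, ((X - C (a i : ℂ)) * (X - C (b i : ℂ)))).natDegree ≤ 2 * k := by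
    intro c
    refine natDegree_mul_le.trans ?_
    rw [erase_natDegree, natDegree_X_sub_C]; omega
  exact (natDegree_sub_le _ _).trans (max_le (h1 _) (h1 _))

theorem NN_natDegree {k : ℕ} (κ : ℂ) (hκ : κ ≠ 0) (a b : Fin k → ℝ) (r : Fin k → ℂ) :
    (NN κ a b r).natDegree = 2 * k + 2 := by
  have h1 : (C κ * (X + C Complex.I) ^ 2 * DC a b).natDegree = 2 * k + 2 := by
    have hm : ((X + C Complex.I : ℂ[X]) ^ 2).Monic := (monic_X_add_C _).pow 2
    rw [mul_assoc, natDegree_C_mul hκ, hm.natDegree_mul (DC_monic a b), DC_natDegree,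
      (monic_X_add_C Complex.I).natDegree_pow, natDegree_X_add_C]
    ring
  have h2 : (∑ j : Fin k, C (r j) * (Qa a b j - Qb a b j)).natDegree ≤ 2 * k := by
    apply natDegree_sum_le_of_forall_le
    intro j _
    exact (natDegree_C_mul_le _ _).trans (Qab_natDegree a b j)
  rw [NN, natDegree_add_eq_left_of_natDegree_lt (by rw [h1]; omega), h1]

theorem DC_eval_ne {k : ℕ} (a b : Fin k → ℝ) (z : ℂ) (h : ∀ i, z ≠ (a i : ℂ) ∧ z ≠ (b i : ℂ)) : (DC a b).eval z ≠ 0 := by
  rw [DC, eval_prod]
  apply Finset.prod_ne_zero_iff.2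
  intro i _
  simp only [eval_mul, eval_sub, eval_X, eval_C]
  exact mul_ne_zero (sub_ne_zero.2 (h i).1) (sub_ne_zero.2 (h i).2)

/-- the partial fraction form -/
noncomputable def HC {k : ℕ} (κ : ℂ) (a b : Fin k → ℝ) (r : Fin k → ℂ) (z : ℂ) : ℂ :=
  κ * (z + Complex.I) ^ 2 + ∑ j : Fin k, r j * (1 / (z - (a j : ℂ)) - 1 / (z - (b j : ℂ)))

theorem NN_eval {k : ℕ} (κ : ℂ) (a b : Fin k → ℝ) (r : Fin k → ℂ) (z : ℂ) (h : ∀ i, z ≠ (a i : ℂ) ∧ z ≠ (b i : ℂ)) :
    (NN κ a b r).eval z = HC κ a b r z * (DC a b).eval z := by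
  rw [NN, HC, eval_add, eval_mul, eval_mul, eval_C, eval_pow, eval_add, eval_X, eval_C, eval_finsetSum, add_mul,
    Finset.sum_mul]
  congr 1
  apply Finset.sum_congr rfl
  intro j _
  rw [eval_mul, eval_C, eval_sub]
  have h1 : (DC a b).eval z = (z - a j) * (Qa a b j).eval z := by
    rw [DC_eq_a a b j, eval_mul, eval_sub, eval_X, eval_C]
  have h2 : (DC a b).eval z = (z - b j) * (Qb a b j).eval z := by
    rw [DC_eq_b a b j, eval_mul, eval_sub, eval_X, eval_C]
  have ha : z - (a j : ℂ) ≠ 0 := sub_ne_zero.2 (h j).1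
  have hb : z - (b j : ℂ) ≠ 0 := sub_ne_zero.2 (h j).2
  rw [mul_assoc, sub_mul]
  congr 2
  · rw [h1]; field_simp
  · rw [h2]; field_simp

theorem Qa_eval_b {k : ℕ} (a b : Fin k → ℝ) (j : Fin k) (x : ℂ) (i : Fin k) (hij : i ≠ j) (hx : x = a i ∨ x = b i) :
    (Qa a b j).eval x = 0 ∧ (Qb a b j).eval x = 0 := by
  have h : (∏ l ∈ univ.erase j, ((X - C (a l : ℂ)) * (X - C (b l : ℂ)))).eval x = 0 := by
    rw [eval_prod]
    apply Finset.prod_eq_zero (Finset.mem_erase.2 ⟨hij, Finset.mem_univ i⟩)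
    simp only [eval_mul, eval_sub, eval_X, eval_C]
    rcases hx with rfl | rfl <;> simp
  rw [Qa, Qb, eval_mul, eval_mul, h]; simp

theorem NN_eval_a {k : ℕ} (κ : ℂ) (a b : Fin k → ℝ) (r : Fin k → ℂ) (j : Fin k) :
    (NN κ a b r).eval (a j : ℂ) = r j * (((derivative (Dl a b)).eval (a j) : ℝ) : ℂ) := by
  have h0 : (DC a b).eval (a j : ℂ) = 0 := by rw [DC_eq_a a b j]; simp
  have h1 : (Qb a b j).eval (a j : ℂ) = 0 := by rw [Qb]; simp
  have h2 : (((derivative (Dl a b)).eval (a j) : ℝ) : ℂ) = (Qa a b j).eval (a j : ℂ) := by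
    rw [Dl_deriv_a, Qa, eval_mul, eval_prod]
    push_cast
    simp
  rw [NN, eval_add, eval_mul, h0, mul_zero, zero_add, eval_finsetSum, Finset.sum_eq_single j]
  · rw [eval_mul, eval_C, eval_sub, h1, sub_zero, h2]
  · intro i _ hij
    obtain ⟨e1, e2⟩ := Qa_eval_b a b i (a j : ℂ) j hij.symm (Or.inl rfl)
    rw [eval_mul, eval_sub, e1, e2]; simp
  · intro h; exact absurd (Finset.mem_univ j) h

theorem NN_eval_b {k : ℕ} (κ : ℂ) (a b : Fin k → ℝ) (r : Fin k → ℂ) (j : Fin k) :
    (NN κ a b r).eval (b j : ℂ) = - (r j * (((derivative (Dl a b)).eval (b j) : ℝ) : ℂ)) := by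
  have h0 : (DC a b).eval (b j : ℂ) = 0 := by rw [DC_eq_b a b j]; simp
  have h1 : (Qa a b j).eval (b j : ℂ) = 0 := by rw [Qa]; simp
  have h2 : (((derivative (Dl a b)).eval (b j) : ℝ) : ℂ) = (Qb a b j).eval (b j : ℂ) := by
    rw [Dl_deriv_b, Qb, eval_mul, eval_prod]
    push_cast
    simp
  rw [NN, eval_add, eval_mul, h0, mul_zero, zero_add, eval_finsetSum, Finset.sum_eq_single j]
  · rw [eval_mul, eval_C, eval_sub, h1, h2]; ring
  · intro i _ hij
    obtain ⟨e1, e2⟩ := Qa_eval_b a b i (b j : ℂ) j hij.symm (Or.inr rfl)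
    rw [eval_mul, eval_sub, e1, e2]; simp
  · intro h; exact absurd (Finset.mem_univ j) h

theorem NN_tied {k : ℕ} (κ : ℂ) (hκ : κ ≠ 0) (a b : Fin k → ℝ) (hn : Nest a b) (r : Fin k → ℂ) (hr : ∀ j, r j ≠ 0)
    (h0 : ∀ z : ℂ, 0 ≤ z.im → (∀ i, z ≠ (a i : ℂ) ∧ z ≠ (b i : ℂ)) → HC κ a b r z ≠ 0) : Tied a b (NN κ a b r) := by
  have hD : ∀ j, (derivative (Dl a b)).eval (a j) ≠ 0 ∧ (derivative (Dl a b)).eval (b j) ≠ 0 := by
    intro j
    have h3 := Dl_sign a b hn j
    constructor
    · intro h; rw [h] at h3; simp at h3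
    · intro h; rw [h] at h3; simp at h3
  refine ⟨NN_natDegree κ hκ a b r, ?_, ?_⟩
  · intro x hx
    by_contra hcon
    push Not at hcon
    by_cases hnode : ∀ i, x ≠ (a i : ℂ) ∧ x ≠ (b i : ℂ)
    · rw [NN_eval κ a b r x hnode] at hx
      rcases mul_eq_zero.1 hx with h | h
      · exact h0 x hcon hnode h
      · exact DC_eval_ne a b x hnode h
    · push Not at hnode
      obtain ⟨i, hi⟩ := hnode
      by_cases hxa : x = (a i : ℂ)
      · rw [hxa, NN_eval_a] at hx
        rcases mul_eq_zero.1 hx with h | h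
        · exact hr i h
        · exact (hD i).1 (by exact_mod_cast h)
      · have hxb := hi hxa
        rw [hxb, NN_eval_b, neg_eq_zero] at hx
        rcases mul_eq_zero.1 hx with h | h
        · exact hr i h
        · exact (hD i).2 (by exact_mod_cast h)
  · intro j
    rw [NN_eval_a, NN_eval_b]; ring

/-- the slice `HC + u HC*` -/
noncomputable def HU {k : ℕ} (κ u : ℂ) (a b : Fin k → ℝ) (r : Fin k → ℂ) (z : ℂ) : ℂ :=
  κ * (z + Complex.I) ^ 2 + u * (starRingEnd ℂ κ) * (z - Complex.I) ^ 2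
    + ∑ j : Fin k, (r j + u * starRingEnd ℂ (r j)) * (1 / (z - (a j : ℂ)) - 1 / (z - (b j : ℂ)))

/-- its derivative -/
noncomputable def HU' {k : ℕ} (κ u : ℂ) (a b : Fin k → ℝ) (r : Fin k → ℂ) (z : ℂ) : ℂ :=
  2 * κ * (z + Complex.I) + 2 * (u * (starRingEnd ℂ κ)) * (z - Complex.I)
    + ∑ j : Fin k, (r j + u * starRingEnd ℂ (r j)) * (1 / (z - (b j : ℂ)) ^ 2 - 1 / (z - (a j : ℂ)) ^ 2)

theorem HU_hasDerivAt {k : ℕ} (κ u : ℂ) (a b : Fin k → ℝ) (r : Fin k → ℂ) (z : ℂ)
    (h : ∀ i, z ≠ (a i : ℂ) ∧ z ≠ (b i : ℂ)) : HasDerivAt (HU κ u a b r) (HU' κ u a b r z) z := by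
  unfold HU HU'
  have e1 : HasDerivAt (fun z : ℂ => κ * (z + Complex.I) ^ 2) (2 * κ * (z + Complex.I)) z := by
    have h1 : HasDerivAt (fun z : ℂ => z + Complex.I) 1 z := (hasDerivAt_id' z).add_const _
    exact ((h1.fun_pow 2).const_mul κ).congr_deriv (by norm_num; ring)
  have e2 : HasDerivAt (fun z : ℂ => u * (starRingEnd ℂ κ) * (z - Complex.I) ^ 2)
      (2 * (u * (starRingEnd ℂ κ)) * (z - Complex.I)) z := by
    have h1 : HasDerivAt (fun z : ℂ => z - Complex.I) 1 z := (hasDerivAt_id' z).sub_const _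
    exact ((h1.fun_pow 2).const_mul (u * starRingEnd ℂ κ)).congr_deriv (by norm_num; ring)
  have e3 : HasDerivAt (fun z : ℂ => ∑ j : Fin k, (r j + u * starRingEnd ℂ (r j)) *
      (1 / (z - (a j : ℂ)) - 1 / (z - (b j : ℂ))))
      (∑ j : Fin k, (r j + u * starRingEnd ℂ (r j)) * (1 / (z - (b j : ℂ)) ^ 2 - 1 / (z - (a j : ℂ)) ^ 2)) z := by
    apply HasDerivAt.fun_sum
    intro j _
    have g : ∀ c : ℂ, z - c ≠ 0 → HasDerivAt (fun w : ℂ => 1 / (w - c)) (-(1 / (z - c) ^ 2)) z := by
      intro c hc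
      have h1 : HasDerivAt (fun z : ℂ => z - c) 1 z := (hasDerivAt_id' z).sub_const _
      have h2 := h1.fun_inv hc
      simp only [one_div]
      exact h2.congr_deriv (by rw [neg_div, one_div])
    have f1 := g _ (sub_ne_zero.2 (h j).1)
    have f2 := g _ (sub_ne_zero.2 (h j).2)
    exact ((f1.fun_sub f2).const_mul (r j + u * starRingEnd ℂ (r j))).congr_deriv (by ring)
  exact (e1.fun_add e2).fun_add e3

/-- **TiedBound** for index type `Fin k` -/
theorem tiedBound_fin (hTIE : SpecTIE) {k : ℕ} (κ : ℂ) (hκ : κ ≠ 0) (a b : Fin k → ℝ) (hn : Nest a b) (r : Fin k → ℂ)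
    (hr : ∀ j, r j ≠ 0)
    (h0 : ∀ z : ℂ, 0 ≤ z.im → (∀ i, z ≠ (a i : ℂ) ∧ z ≠ (b i : ℂ)) → HC κ a b r z ≠ 0)
    (u : ℂ) (hu : ‖u‖ = 1) (z : ℂ) (hz : 0 < z.im) :
    HU κ u a b r z ≠ 0 ∧ ‖HU κ u a b r z + Complex.I * (z.im : ℂ) * HU' κ u a b r z‖ ≤ 3 * ‖HU κ u a b r z‖ := by
  have hT := NN_tied κ hκ a b hn r hr h0
  obtain ⟨v, hv⟩ : ∃ v : ℂ, v ^ 2 = starRingEnd ℂ u := IsAlgClosed.exists_pow_nat_eq _ two_pos
  have hvn : ‖v‖ = 1 := by
    have h1 : ‖v‖ ^ 2 = 1 := by rw [← norm_pow, hv, RCLike.norm_conj, hu]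
    have h2 := norm_nonneg v
    nlinarith [sq_nonneg (‖v‖ - 1), sq_nonneg (‖v‖ + 1)]
  have hv0 : v ≠ 0 := by rintro rfl; simp at hvn
  have hvv : v * starRingEnd ℂ v = 1 := by
    rw [Complex.mul_conj, Complex.normSq_eq_norm_sq, hvn]; simp
  have hvu : starRingEnd ℂ v = v * u := by
    have h1 : (starRingEnd ℂ v) ^ 2 = u := by
      rw [← map_pow, hv]; simp
    calc starRingEnd ℂ v = (v * starRingEnd ℂ v) * starRingEnd ℂ v := by rw [hvv, one_mul]
      _ = v * (starRingEnd ℂ v) ^ 2 := by ring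
      _ = v * u := by rw [h1]
  obtain ⟨hM0, hM⟩ := hTIE k a b hn (NN κ a b r) hT v hvn z hz
  -- open set of non-nodes
  have hnodes : ∀ w : ℂ, 0 < w.im → ∀ i, w ≠ (a i : ℂ) ∧ w ≠ (b i : ℂ) := by
    intro w hw i
    constructor
    · rintro rfl; simp at hw
    · rintro rfl; simp at hw
  -- M = v HU Delta
  have hstar : ∀ w : ℂ, 0 < w.im → (star (NN κ a b r)).eval w
      = ((starRingEnd ℂ κ) * (w - Complex.I) ^ 2
        + ∑ j : Fin k, starRingEnd ℂ (r j) * (1 / (w - (a j : ℂ)) - 1 / (w - (b j : ℂ)))) * (DC a b).eval w := by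
    intro w hw
    rw [star_eval, NN_eval κ a b r (starRingEnd ℂ w) (by
      intro i
      constructor
      · intro h
        have := congrArg Complex.im h
        simp at this; linarith
      · intro h
        have := congrArg Complex.im h
        simp at this; linarith), map_mul]
    congr 1
    · rw [HC, map_add, map_mul, map_pow, map_add, map_sum]
      simp only [map_mul, map_sub, map_div₀, map_one, Complex.conj_conj, Complex.conj_ofReal, Complex.conj_I]
      congr 1
    · rw [← star_eval, star]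
      congr 1
      rw [DC, Polynomial.map_prod]
      apply Finset.prod_congr rfl
      intro i _
      simp
  have hMe : ∀ w : ℂ, 0 < w.im → (C v * NN κ a b r + C (starRingEnd ℂ v) * star (NN κ a b r)).eval w
      = v * HU κ u a b r w * (DC a b).eval w := by
    intro w hw
    rw [eval_add, eval_mul, eval_mul, eval_C, eval_C, hstar w hw, NN_eval κ a b r w (hnodes w hw), hvu, HC, HU]
    have : ∑ j : Fin k, (r j + u * starRingEnd ℂ (r j)) * (1 / (w - (a j : ℂ)) - 1 / (w - (b j : ℂ)))
        = ∑ j : Fin k, r j * (1 / (w - (a j : ℂ)) - 1 / (w - (b j : ℂ)))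
          + u * ∑ j : Fin k, starRingEnd ℂ (r j) * (1 / (w - (a j : ℂ)) - 1 / (w - (b j : ℂ))) := by
      rw [Finset.mul_sum, ← Finset.sum_add_distrib]
      apply Finset.sum_congr rfl
      intro j _; ring
    rw [this]; ring
  have hD0 := DC_eval_ne a b z (hnodes z hz)
  have hU0 : HU κ u a b r z ≠ 0 := by
    intro h
    apply hM0
    rw [hMe z hz, h]; simp
  refine ⟨hU0, ?_⟩
  -- the derivative
  have hMd : (derivative (C v * NN κ a b r + C (starRingEnd ℂ v) * star (NN κ a b r))).eval z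
      = v * (HU' κ u a b r z * (DC a b).eval z + HU κ u a b r z * (derivative (DC a b)).eval z) := by
    have h1 := (C v * NN κ a b r + C (starRingEnd ℂ v) * star (NN κ a b r)).hasDerivAt z
    have h2 : HasDerivAt (fun w => v * HU κ u a b r w * (DC a b).eval w)
        (v * HU' κ u a b r z * (DC a b).eval z + v * HU κ u a b r z * (derivative (DC a b)).eval z) z :=
      ((HU_hasDerivAt κ u a b r z (hnodes z hz)).const_mul v).mul ((DC a b).hasDerivAt z)
    have hopen : ∀ᶠ w in 𝓝 z, 0 < w.im :=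
      (isOpen_lt continuous_const Complex.continuous_im).mem_nhds hz
    have h3 : (fun w => (C v * NN κ a b r + C (starRingEnd ℂ v) * star (NN κ a b r)).eval w)
        =ᶠ[𝓝 z] fun w => v * HU κ u a b r w * (DC a b).eval w := by
      filter_upwards [hopen] with w hw
      exact hMe w hw
    have h4 := h1.unique (h2.congr_of_eventuallyEq h3)
    rw [h4]; ring
  rw [hMd, hMe z hz, aeval_Dl, aeval_Dl'] at hM
  have hq : v * (HU' κ u a b r z * (DC a b).eval z + HU κ u a b r z * (derivative (DC a b)).eval z)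
      / (v * HU κ u a b r z * (DC a b).eval z) - (derivative (DC a b)).eval z / (DC a b).eval z
      = HU' κ u a b r z / HU κ u a b r z := by
    field_simp
    ring
  rw [hq] at hM
  have hfin : HU κ u a b r z + Complex.I * (z.im : ℂ) * HU' κ u a b r z
      = HU κ u a b r z * (1 + Complex.I * (z.im : ℂ) * (HU' κ u a b r z / HU κ u a b r z)) := by
    field_simp
  rw [hfin, norm_mul, mul_comm]
  exact mul_le_mul_of_nonneg_right hM (norm_nonneg _)

end Pool.Agent.Lib.MP4cd976.K
end

section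
/-!
# MP_4cd976_an, block K: `TiedBound` (the interface of block D) from `SpecTIE`
-/
set_option autoImplicit false

open Finset

namespace Pool.Agent.Lib.MP4cd976.K

theorem tiedBound_of_TIE (hTIE : SpecTIE) : Pool.Agent.Lib.MP4cd976.D.TiedBound := by
  intro k κ a b r hT u hu z hz
  have hn : Nest (fun i : Fin k => a i) (fun i : Fin k => b i) :=
    ⟨fun i j hij => hT.anti i j (Fin.lt_def.1 hij) j.2, fun i j hij => hT.mono i j (Fin.lt_def.1 hij) j.2,
      fun i j => hT.ab i j i.2 j.2⟩
  have hC : ∀ X : ℂ, Pool.Agent.Lib.MP4cd976.D.HC k κ a b r X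
      = HC κ (fun i : Fin k => a i) (fun i : Fin k => b i) (fun i : Fin k => r i) X := by
    intro X
    rw [Pool.Agent.Lib.MP4cd976.D.HC, HC, Finset.sum_range]
  have hU : Pool.Agent.Lib.MP4cd976.D.HU k κ a b r u z
      = HU κ u (fun i : Fin k => a i) (fun i : Fin k => b i) (fun i : Fin k => r i) z := by
    rw [Pool.Agent.Lib.MP4cd976.D.HU, HU, Finset.sum_range, mul_assoc u]
  have hU' : Pool.Agent.Lib.MP4cd976.D.HU' k κ a b r u z
      = HU' κ u (fun i : Fin k => a i) (fun i : Fin k => b i) (fun i : Fin k => r i) z := by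
    rw [Pool.Agent.Lib.MP4cd976.D.HU', HU', Finset.sum_range, sub_eq_add_neg, ← Finset.sum_neg_distrib]
    congr 1
    · ring
    · apply Finset.sum_congr rfl
      intro j _
      ring
  have h := (tiedBound_fin hTIE κ hT.κ0 (fun i : Fin k => a i) (fun i : Fin k => b i) hn (fun i : Fin k => r i)
    (fun j => hT.r0 j j.2) (fun X hX hX' => by
      rw [← hC]
      exact hT.nz X hX fun i hi => hX' ⟨i, hi⟩) u hu z hz).2
  rw [hU, hU']
  exact h

/-- block K up to `SpecFIN` -/
theorem tiedBound_of_FIN (hFIN : SpecFIN) : Pool.Agent.Lib.MP4cd976.D.TiedBound := tiedBound_of_TIE (specTIE hFIN)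

end Pool.Agent.Lib.MP4cd976.K
end
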