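import Mathlib
import Pool.Agent.Lib.MP_4cd976_an.DN.RAD
import Pool.Agent.Lib.MP_4cd976_an.K.TB

section
/-!
# Claim D from Claim G, and the bound for nested tied products (MP_4cd976_an)
-/
set_option autoImplicit false
set_option linter.unusedSectionVars false
set_option linter.unusedSimpArgs false

open Finset Polynomial

namespace Pool.Agent.MP_4cd976_an.Sixth

open Pool.Agent.Lib.MP4cd976

section claimD

variable {ι : Type} [Fintype ι] [DecidableEq ι]

lemma norm_sq_node (z : ℂ) (x : ℝ) : ‖z - x‖ ^ 2 = (x - z.re) ^ 2 + z.im ^ 2 := by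
  rw [← Complex.normSq_eq_norm_sq, Complex.normSq_apply]
  simp only [Complex.sub_re, Complex.ofReal_re, Complex.sub_im, Complex.ofReal_im]
  ring

lemma hh_node (z : ℂ) (hz : 0 < z.im) (t x : ℝ) :
    G4.hh z.re z.im (G4.nul (z.re + t)) x =
      1 + 2 * t * ((z - x)⁻¹).re - ((t ^ 2 - z.im ^ 2) / z.im) * ((z - x)⁻¹).im := by
  rw [G4.hh, G4.ev_nul, G4.ev_Qz, Complex.inv_re, Complex.inv_im, Complex.normSq_apply]
  simp only [Complex.sub_re, Complex.ofReal_re, Complex.sub_im, Complex.ofReal_im]
  have h1 : (x - z.re) ^ 2 + z.im ^ 2 ≠ 0 := by positivity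
  have h2 : (z.re - x) * (z.re - x) + (z.im - 0) * (z.im - 0) = (x - z.re) ^ 2 + z.im ^ 2 := by
    ring
  rw [h2]
  field_simp
  ring

theorem claimD (p : ι → Bool → ℝ) (hp : G4.Dist p) (z : ℂ) (hz : 0 < z.im) : ClaimD p z := by
  set W : (ι → Bool) → ℝ := fun e => cw p e * ∏ j, ‖z - p j (e j)‖ ^ 4 with hW
  set om : ι → Bool → ℝ := fun i s =>
    (∏ j, if i = j then 1 else |p i s - p j true| * |p i s - p j false|)⁻¹ with hom
  have hne : ∀ i s, (∏ j, if i = j then 1 else |p i s - p j true| * |p i s - p j false|) ≠ 0 := by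
    intro i s
    refine Finset.prod_ne_zero_iff.mpr fun j _ => ?_
    split_ifs with h
    · exact one_ne_zero
    · exact mul_ne_zero (abs_ne_zero.mpr (sub_ne_zero.mpr (hp i j _ _ (Or.inl h))))
        (abs_ne_zero.mpr (sub_ne_zero.mpr (hp i j _ _ (Or.inl h))))
  have hompos : ∀ i s, 0 < om i s := by
    intro i s
    refine inv_pos.mpr (lt_of_le_of_ne (Finset.prod_nonneg fun j _ => ?_) (hne i s).symm)
    split_ifs
    · exact zero_le_one
    · positivity
  have hwt : ∀ e, G4.wt p om e * G4.QQ z.re z.im p e ^ 2 = W e := by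
    intro e
    have h1 : G4.wt p om e = cw p e := by
      rw [G4.wt, G4.van, cw, ← Finset.prod_mul_distrib]
      refine Finset.prod_congr rfl fun i _ => ?_
      simp only [hom]
      rw [← Finset.prod_inv_distrib, ← Finset.prod_mul_distrib]
      refine Finset.prod_congr rfl fun j _ => ?_
      by_cases h : i = j
      · simp [h]
      · simp only [h, if_false]
        have h5 : |p i (e i) - p j (e j)| ≠ 0 :=
          abs_ne_zero.mpr (sub_ne_zero.mpr (hp _ _ _ _ (Or.inl h)))
        rw [← abs_two _ _ (e j), mul_inv, mul_comm (|p i (e i) - p j (e j)|⁻¹), mul_assoc,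
          inv_mul_cancel₀ h5, mul_one]
    rw [h1, hW, G4.QQ]
    congr 1
    rw [← Finset.prod_pow]
    refine Finset.prod_congr rfl fun j _ => ?_
    rw [G4.ev_Qz, ← norm_sq_node]
    ring
  have hWpos : ∀ e, 0 < W e := by
    intro e
    rw [← hwt]
    exact mul_pos (G4.wt_pos hp hompos e) (pow_pos (G4.QQ_pos hz p e) 2)
  have hG : ∀ t : ℝ, ∑ e, W e * (t * (JJ p z e).re -
      ((t ^ 2 - z.im ^ 2) / (2 * z.im)) * (JJ p z e).im - 2) ≤ 0 := by
    intro t
    have h := G4.claimG4 p om hompos hp (fun _ => 1) (fun i s => by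
      simp only [hom]; exact inv_mul_cancel₀ (hne i s)) (u := z.re) hz (G4.nul (z.re + t))
      (by rw [G4.B_nul, G4.ev_nul]; ring) (by
        rw [G4.B_nul]; exact G4.ev_Qz_pos hz _)
    refine le_of_eq_of_le (Finset.sum_congr rfl fun e _ => ?_) h
    rw [hwt]
    congr 1
    have h1 : G4.HH z.re z.im (G4.nul (z.re + t)) p e =
        ∑ i, G4.hh z.re z.im (G4.nul (z.re + t)) (p i (e i)) := rfl
    rw [h1, Finset.mul_sum, ← Finset.sum_sub_distrib]
    have h2 : (JJ p z e).re = ∑ j, (((z - p j (e j))⁻¹).re - ((z - p j (! e j))⁻¹).re) := by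
      rw [JJ, Complex.re_sum]
      simp
    have h3 : (JJ p z e).im = ∑ j, (((z - p j (e j))⁻¹).im - ((z - p j (! e j))⁻¹).im) := by
      rw [JJ, Complex.im_sum]
      simp
    rw [h2, h3, Finset.mul_sum, Finset.mul_sum, ← Finset.sum_sub_distrib]
    have h4 : (G4.nul (z.re + t)).1 = 1 := rfl
    rw [h4, mul_one]
    congr 1
    refine Finset.sum_congr rfl fun i _ => ?_
    have h5 : G4.hh z.re z.im (G4.nul (z.re + t)) (p i true) +
        G4.hh z.re z.im (G4.nul (z.re + t)) (p i false) =
        G4.hh z.re z.im (G4.nul (z.re + t)) (p i (e i)) +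
        G4.hh z.re z.im (G4.nul (z.re + t)) (p i (! e i)) := by
      cases e i <;> simp [add_comm]
    rw [h5, hh_node z hz, hh_node z hz]
    field_simp
    ring
  set S : ℝ := ∑ e, W e with hS
  set R : ℝ := ∑ e, W e * (JJ p z e).re with hR
  set I : ℝ := ∑ e, W e * (JJ p z e).im with hI
  have hSpos : 0 < S := Finset.sum_pos (fun e _ => hWpos e) Finset.univ_nonempty
  have hq : ∀ t : ℝ, 0 ≤ (I / (2 * z.im)) * (t * t) + (-R) * t + (2 * S - z.im * I / 2) := by
    intro t
    have h := hG t
    have h1 : ∑ e, W e * (t * (JJ p z e).re -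
      ((t ^ 2 - z.im ^ 2) / (2 * z.im)) * (JJ p z e).im - 2) =
        t * R - ((t ^ 2 - z.im ^ 2) / (2 * z.im)) * I - 2 * S := by
      rw [hR, hI, hS, Finset.mul_sum, Finset.mul_sum, Finset.mul_sum, ← Finset.sum_sub_distrib,
        ← Finset.sum_sub_distrib]
      refine Finset.sum_congr rfl fun e _ => ?_
      ring
    rw [h1] at h
    have h2 : (I / (2 * z.im)) * (t * t) + (-R) * t + (2 * S - z.im * I / 2) =
        -(t * R - ((t ^ 2 - z.im ^ 2) / (2 * z.im)) * I - 2 * S) := by
      field_simp
      ring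
    rw [h2]
    linarith
  have hdisc := discrim_le_zero hq
  rw [discrim] at hdisc
  have hdisc2 : z.im ^ 2 * (R ^ 2 + I ^ 2) ≤ 4 * z.im * I * S := by
    have h1 : (-R) ^ 2 - 4 * (I / (2 * z.im)) * (2 * S - z.im * I / 2) =
        R ^ 2 + I ^ 2 - 4 * I * S / z.im := by
      field_simp
      ring
    rw [h1] at hdisc
    have h2 : z.im ^ 2 * (R ^ 2 + I ^ 2 - 4 * I * S / z.im) =
        z.im ^ 2 * (R ^ 2 + I ^ 2) - 4 * z.im * I * S := by
      field_simp
    have h3 : z.im ^ 2 * (R ^ 2 + I ^ 2 - 4 * I * S / z.im) ≤ 0 :=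
      mul_nonpos_of_nonneg_of_nonpos (sq_nonneg _) hdisc
    linarith
  have hsum : ∑ e, ((W e : ℝ) : ℂ) * (2 + Complex.I * z.im * JJ p z e) =
      ((2 * S - z.im * I : ℝ) : ℂ) + ((z.im * R : ℝ) : ℂ) * Complex.I := by
    apply Complex.ext
    · rw [Complex.re_sum]
      simp only [Complex.add_re, Complex.ofReal_re, Complex.mul_re, Complex.ofReal_im,
        Complex.I_re, Complex.I_im, Complex.add_im, Complex.mul_im]
      rw [hS, hI, Finset.mul_sum, Finset.mul_sum]
      simp only [mul_zero, zero_mul, sub_zero, add_zero, mul_one, zero_add, zero_sub, neg_mul,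
        sub_self]
      rw [← Finset.sum_sub_distrib]
      refine Finset.sum_congr rfl fun e _ => ?_
      norm_num
      ring
    · rw [Complex.im_sum]
      simp only [Complex.add_re, Complex.ofReal_re, Complex.mul_re, Complex.ofReal_im,
        Complex.I_re, Complex.I_im, Complex.add_im, Complex.mul_im]
      rw [hR, Finset.mul_sum]
      simp only [mul_zero, zero_mul, sub_zero, add_zero, mul_one, zero_add, zero_sub, neg_mul,
        sub_self]
      refine Finset.sum_congr rfl fun e _ => ?_
      norm_num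
      ring
  show ‖∑ e : ι → Bool, ((W e : ℝ) : ℂ) * (2 + Complex.I * z.im * JJ p z e)‖ ≤ 2 * ∑ e, W e
  rw [hsum, ← hS, Complex.norm_add_mul_I]
  refine Real.sqrt_le_iff.mpr ⟨by positivity, ?_⟩
  nlinarith

end claimD

section nested

variable {k : ℕ}

/-- the two points of a pair -/
def nodes (a b : Fin k → ℝ) : Fin k → Bool → ℝ := fun j s => if s then a j else b j

lemma nodes_dist (a b : Fin k → ℝ) (ha : StrictAnti a) (hb : StrictMono b)
    (hab : ∀ i j, a i < b j) : G4.Dist (nodes a b) := by
  intro i j σ τ h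
  cases σ <;> cases τ <;> simp only [nodes, if_true, if_false, Bool.false_eq_true]
  · rcases h with h | h
    · exact fun h' => h (hb.injective h')
    · exact absurd rfl h
  · exact (hab j i).ne'
  · exact (hab i j).ne
  · rcases h with h | h
    · exact fun h' => h (ha.injective h')
    · exact absurd rfl h

/-- sign of the product over the other nodes -/
lemma PR_sign (a b : Fin k → ℝ) (ha : StrictAnti a) (hb : StrictMono b)
    (hab : ∀ i j, a i < b j) (e : Fin k → Bool) (j : Fin k) :
    0 < (-1 : ℝ) ^ (j : ℕ) * (PR (nodes a b) e j (a j) * PR (nodes a b) e j (b j)) := by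
  have h1 : (-1 : ℝ) ^ (j : ℕ) = ∏ i : Fin k, if i < j then (-1 : ℝ) else 1 := by
    rw [Finset.prod_ite, Finset.prod_const_one, mul_one, Finset.prod_const]
    congr 1
    rw [show (Finset.univ.filter fun i : Fin k => i < j) = Finset.Iio j by ext; simp]
    simp
  rw [h1, PR, PR, ← Finset.prod_mul_distrib, ← Finset.prod_mul_distrib]
  refine Finset.prod_pos fun i _ => ?_
  rcases lt_trichotomy i j with h | h | h
  · rw [if_pos h, if_neg h.ne, if_neg h.ne]
    have h2 := ha h
    have h3 := hb h
    have h4 := hab i j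
    have h5 := hab j i
    cases e i <;> simp only [nodes, if_true, if_false, Bool.false_eq_true] <;> nlinarith
  · subst h; simp
  · rw [if_neg (not_lt.mpr h.le), if_neg h.ne', if_neg h.ne']
    have h2 := ha h
    have h3 := hb h
    have h4 := hab i j
    have h5 := hab j i
    cases e i <;> simp only [nodes, if_true, if_false, Bool.false_eq_true] <;> nlinarith

/-- the denominator -/
noncomputable def Del (a b : Fin k → ℝ) : ℝ[X] := ∏ j, ((X - C (a j)) * (X - C (b j)))

lemma logDeriv_prod_poly {ι : Type} (s : Finset ι) (f : ι → ℝ[X]) (z : ℂ)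
    (h : ∀ i ∈ s, aeval z (f i) ≠ 0) :
    aeval z (derivative (∏ i ∈ s, f i)) / aeval z (∏ i ∈ s, f i) =
      ∑ i ∈ s, aeval z (derivative (f i)) / aeval z (f i) := by
  classical
  induction s using Finset.induction_on with
  | empty => simp
  | insert i s hi ih =>
    have h1 := h i (Finset.mem_insert_self i s)
    have h2 : ∀ j ∈ s, aeval z (f j) ≠ 0 := fun j hj => h j (Finset.mem_insert_of_mem hj)
    have h3 : aeval z (∏ j ∈ s, f j) ≠ 0 := by
      rw [map_prod]; exact Finset.prod_ne_zero_iff.mpr h2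
    rw [Finset.prod_insert hi, Finset.sum_insert hi, ← ih h2, derivative_mul, map_add, map_mul,
      map_mul, map_mul]
    field_simp

lemma Del_logDeriv (a b : Fin k → ℝ) (z : ℂ) (hz : z.im ≠ 0) :
    aeval z (derivative (Del a b)) / aeval z (Del a b) = Gall (nodes a b) z := by
  have hzs : ∀ r : ℝ, z - r ≠ 0 := fun r h => hz (by rw [sub_eq_zero.mp h]; simp)
  have h1 : ∀ r : ℝ, aeval z (X - C r : ℝ[X]) = z - r := fun r => by simp
  rw [Del, logDeriv_prod_poly]
  · rw [Gall]
    refine Finset.sum_congr rfl fun j _ => ?_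
    simp only [nodes, if_true, if_false, Bool.false_eq_true]
    rw [derivative_mul, map_add, map_mul, map_mul, map_mul, h1, h1]
    have e1 := hzs (a j)
    have e2 := hzs (b j)
    simp only [derivative_sub, derivative_X, derivative_C, sub_zero, map_one]
    field_simp
  · intro j _
    rw [map_mul, h1, h1]
    exact mul_ne_zero (hzs _) (hzs _)

lemma Del_deriv_node (a b : Fin k → ℝ) (j : Fin k) (s : Bool) :
    |(derivative (Del a b)).eval (nodes a b j s)| = |a j - b j| * DD (nodes a b) j s := by
  have h0 : Del a b = ((X - C (a j)) * (X - C (b j))) *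
      ∏ i ∈ Finset.univ.erase j, ((X - C (a i)) * (X - C (b i))) := by
    rw [Del]
    exact (Finset.mul_prod_erase Finset.univ (fun i => ((X - C (a i)) * (X - C (b i)) : ℝ[X]))
      (Finset.mem_univ j)).symm
  have h1 : (derivative (Del a b)).eval (nodes a b j s) =
      (if s then a j - b j else b j - a j) *
        ∏ i ∈ Finset.univ.erase j, ((nodes a b j s - a i) * (nodes a b j s - b i)) := by
    rw [h0, derivative_mul, eval_add, eval_mul, eval_mul, derivative_mul]
    cases s <;> simp [nodes, eval_prod]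
  rw [h1, abs_mul, DD]
  have h2 : (∏ i, if j = i then (1 : ℝ) else |nodes a b j s - nodes a b i true| *
      |nodes a b j s - nodes a b i false|) =
      ∏ i ∈ Finset.univ.erase j, (|nodes a b j s - nodes a b i true| *
      |nodes a b j s - nodes a b i false|) := by
    rw [← Finset.mul_prod_erase _ _ (Finset.mem_univ j), if_pos rfl, one_mul]
    refine Finset.prod_congr rfl fun i hi => ?_
    rw [if_neg (Finset.ne_of_mem_erase hi).symm]
  rw [h2, Finset.abs_prod]
  congr 1
  · cases s
    · simp [abs_sub_comm]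
    · simp
  · refine Finset.prod_congr rfl fun i _ => ?_
    rw [abs_mul]
    simp [nodes]

lemma real_root (p : ℝ[X]) (a b : Fin k → ℝ) (ha : StrictAnti a) (hb : StrictMono b)
    (hab : ∀ i j, a i < b j) (hp : p.natDegree ≤ k + 1) (hp0 : p ≠ 0)
    (hsgn : ∀ e j, p.eval (nodes a b j (e j)) * p.eval (nodes a b j (! e j)) *
      PR (nodes a b) e j (nodes a b j (e j)) * PR (nodes a b) e j (nodes a b j (! e j)) < 0)
    (z : ℂ) (hz : 0 < z.im) : aeval z p ≠ 0 := by
  intro h0
  have hD := nodes_dist a b ha hb hab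
  have hd : ∀ i j, i ≠ j → ∀ s t, nodes a b i s ≠ nodes a b j t :=
    fun i j h s t => hD i j s t (Or.inl h)
  set fc : ℂ[X] := p.map (algebraMap ℝ ℂ) with hfc
  have hev : ∀ x : ℂ, fc.eval x = aeval x p := fun x => by
    rw [hfc, eval_map_algebraMap]
  have hevr : ∀ r : ℝ, fc.eval (r : ℂ) = ((p.eval r : ℝ) : ℂ) := fun r => by
    rw [hev]
    exact aeval_algebraMap_apply_eq_algebraMap_eval r p
  have hz0 : z.im ≠ 0 := hz.ne'
  set w : ℂ := starRingEnd ℂ z with hw
  have hzw : z ≠ w := by
    intro h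
    have := congrArg Complex.im h
    rw [hw, Complex.conj_im] at this
    exact hz0 (by linarith)
  have hw0 : w.im ≠ 0 := by rw [hw, Complex.conj_im]; exact neg_ne_zero.mpr hz0
  have hwp : fc.eval w = 0 := by
    rw [hev, hw, Polynomial.aeval_conj, h0, map_zero]
  have hK := kernel_identity (nodes a b) hd (cF (nodes a b) p) fc
    (by rw [Fintype.card_fin]; exact natDegree_map_le.trans hp) (fun e j => by
      rw [hevr, hevr]
      have := tie_real (nodes a b) p hsgn e j
      exact_mod_cast congrArg (fun r : ℝ => (r : ℂ)) this) z w hzw hz0 hw0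
  have hnz : ∀ j s, p.eval (nodes a b j s) ≠ 0 := by
    intro j s h
    have := hsgn (fun _ => s) j
    simp [h] at this
  have hB : BK (nodes a b) (cF (nodes a b) p) z w ≠ 0 := by
    have h1 : BK (nodes a b) (cF (nodes a b) p) z w =
        ((∑ e, CC (nodes a b) (fun j s => |p.eval (nodes a b j s)|) z e : ℝ) : ℂ) := by
      rw [BK]
      push_cast
      refine Finset.sum_congr rfl fun e _ => ?_
      rw [CC_eq, hw, PP_conj, Complex.mul_conj, Complex.normSq_eq_norm_sq]
      push_cast
      ring
    rw [h1]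
    refine Complex.ofReal_ne_zero.mpr (ne_of_gt ?_)
    exact Finset.sum_pos (fun e _ => CC_pos _ hd p hnz z hz0 e) Finset.univ_nonempty
  have hz' : fc.eval z = 0 := by rw [hev, h0]
  have hall : ∀ x : ℂ, fc.eval x = 0 := by
    intro x
    have h := hK x
    rw [hz', hwp, zero_mul, zero_mul, zero_mul, zero_mul, sub_zero] at h
    have h2 : z - w ≠ 0 := sub_ne_zero.mpr hzw
    rcases mul_eq_zero.mp h with h | h
    · rcases mul_eq_zero.mp h with h | h
      · exact h
      · exact absurd h h2
    · exact absurd h hB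
  have hfc0 : fc = 0 := Polynomial.funext fun x => by rw [hall x, eval_zero]
  exact hp0 ((Polynomial.map_eq_zero _).mp hfc0)

/-- **(**) for nested pairs.** -/
theorem tied_A2 (a b : Fin k → ℝ) (ha : StrictAnti a) (hb : StrictMono b)
    (hab : ∀ i j, a i < b j) (p q : ℝ[X]) (hp0 : p ≠ 0) (hq0 : q ≠ 0)
    (hp : p.natDegree ≤ k + 1) (hq : q.natDegree ≤ k + 1)
    (hps : ∀ j : Fin k, 0 < (-1 : ℝ) ^ ((j : ℕ) + 1) * (p.eval (a j) * p.eval (b j)))
    (hqs : ∀ j : Fin k, 0 < (-1 : ℝ) ^ ((j : ℕ) + 1) * (q.eval (a j) * q.eval (b j)))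
    (htie : ∀ j : Fin k, |p.eval (a j) * q.eval (a j)| / |(derivative (Del a b)).eval (a j)| =
      |p.eval (b j) * q.eval (b j)| / |(derivative (Del a b)).eval (b j)|)
    (z : ℂ) (hz : 0 < z.im) :
    aeval z p ≠ 0 ∧ aeval z q ≠ 0 ∧
    ‖1 + Complex.I * z.im * (aeval z (derivative p) / aeval z p +
      aeval z (derivative q) / aeval z q -
        aeval z (derivative (Del a b)) / aeval z (Del a b))‖ ≤ 3 := by
  have hD := nodes_dist a b ha hb hab
  have hd : ∀ i j, i ≠ j → ∀ s t, nodes a b i s ≠ nodes a b j t :=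
    fun i j h s t => hD i j s t (Or.inl h)
  have hsg : ∀ f : ℝ[X],
      (∀ j : Fin k, 0 < (-1 : ℝ) ^ ((j : ℕ) + 1) * (f.eval (a j) * f.eval (b j))) →
      ∀ e j, f.eval (nodes a b j (e j)) * f.eval (nodes a b j (! e j)) *
      PR (nodes a b) e j (nodes a b j (e j)) * PR (nodes a b) e j (nodes a b j (! e j)) < 0 := by
    intro f hf e j
    have h1 := hf j
    have h2 := PR_sign a b ha hb hab e j
    have h3 := mul_pos h1 h2
    have h4 : (-1 : ℝ) ^ ((j : ℕ) + 1) * (f.eval (a j) * f.eval (b j)) *
        ((-1 : ℝ) ^ (j : ℕ) * (PR (nodes a b) e j (a j) * PR (nodes a b) e j (b j))) =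
        -(f.eval (a j) * f.eval (b j) * PR (nodes a b) e j (a j) * PR (nodes a b) e j (b j)) := by
      have h5 : (-1 : ℝ) ^ (j : ℕ) * (-1 : ℝ) ^ (j : ℕ) = 1 := by
        rw [← mul_pow]; simp
      rw [pow_succ]
      linear_combination (-(f.eval (a j) * f.eval (b j) * PR (nodes a b) e j (a j) *
        PR (nodes a b) e j (b j))) * h5
    rw [h4] at h3
    cases h : e j <;> simp only [nodes, Bool.not_true, Bool.not_false, if_true, if_false,
      Bool.false_eq_true] <;> nlinarith
  have hps' := hsg p hps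
  have hqs' := hsg q hqs
  have hpz := real_root p a b ha hb hab hp hp0 hps' z hz
  have hqz := real_root q a b ha hb hab hq hq0 hqs' z hz
  refine ⟨hpz, hqz, ?_⟩
  rw [Del_logDeriv a b z hz.ne']
  have hDDpos : ∀ j s, 0 < DD (nodes a b) j s := by
    intro j s
    refine Finset.prod_pos fun i _ => ?_
    split_ifs with h
    · exact one_pos
    · exact mul_pos (abs_pos.mpr (sub_ne_zero.mpr (hd _ _ h _ _)))
        (abs_pos.mpr (sub_ne_zero.mpr (hd _ _ h _ _)))
  have hpn : ∀ j, p.eval (a j) ≠ 0 := by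
    intro j h; have := hps j; simp [h] at this
  have hqn : ∀ j, q.eval (a j) ≠ 0 := by
    intro j h; have := hqs j; simp [h] at this
  refine tied_general (nodes a b) hd z hz (fun d => claimD _ ?_ z hz) p q
    (by rw [Fintype.card_fin]; exact hp) (by rw [Fintype.card_fin]; exact hq) hps' hqs'
    (fun j => |p.eval (a j)| * |q.eval (a j)| / DD (nodes a b) j true)
    (fun j => div_pos (mul_pos (abs_pos.mpr (hpn j)) (abs_pos.mpr (hqn j))) (hDDpos j true))
    ?_ hpz hqz
  · intro i j σ τ h
    refine hD i.1 j.1 σ τ ?_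
    rcases h with h | h
    · exact Or.inl fun h' => h (Subtype.ext h')
    · exact Or.inr h
  · intro j s
    cases s
    · have h1 := htie j
      have e1 := Del_deriv_node a b j true
      have e2 := Del_deriv_node a b j false
      simp only [nodes, if_true, if_false, Bool.false_eq_true] at e1 e2
      rw [e1, e2, abs_mul, abs_mul] at h1
      have h3 : |a j - b j| ≠ 0 := abs_ne_zero.mpr (sub_ne_zero.mpr (hab j j).ne)
      have h4 := (hDDpos j true).ne'
      have h5 := (hDDpos j false).ne'
      show |p.eval (b j)| * |q.eval (b j)| = _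
      change _ / (|a j - b j| * DD (nodes a b) j true) = _ / (|a j - b j| * DD (nodes a b) j false) at h1
      rw [div_eq_div_iff (mul_ne_zero h3 h4) (mul_ne_zero h3 h5)] at h1
      rw [div_mul_eq_mul_div, eq_div_iff h4]
      have h6 : |a j - b j| * (|p.eval (b j)| * |q.eval (b j)| * DD (nodes a b) j true -
          |p.eval (a j)| * |q.eval (a j)| * DD (nodes a b) j false) = 0 := by
        linear_combination -h1
      rcases mul_eq_zero.mp h6 with h7 | h7
      · exact absurd h7 h3
      · linarith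
    · show |p.eval (a j)| * |q.eval (a j)| = _
      rw [div_mul_cancel₀ _ (hDDpos j true).ne']

end nested

end Pool.Agent.MP_4cd976_an.Sixth
end

section
/-!
# MP_4cd976_an, block K: `TiedBound`, final
-/
set_option autoImplicit false

open Finset Polynomial

namespace Pool.Agent.Lib.MP4cd976.K

theorem specFIN : SpecFIN := by
  intro k a b hn p q hp hq hp0 hq0 hps hqs htie z hz
  have hDel : Pool.Agent.MP_4cd976_an.Sixth.Del a b = Dl a b := rfl
  have h := Pool.Agent.MP_4cd976_an.Sixth.tied_A2 a b hn.anti hn.mono hn.lt p q hp0 hq0 hp hq hps hqs (by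
    intro j
    rw [hDel]
    have h3 := Dl_sign a b hn j
    have hD1 : (derivative (Dl a b)).eval (a j) ≠ 0 := by
      intro h; rw [h] at h3; simp at h3
    have hD2 : (derivative (Dl a b)).eval (b j) ≠ 0 := by
      intro h; rw [h] at h3; simp at h3
    rw [← abs_div, ← abs_div]
    have h1 := htie j
    rw [eval_mul, eval_mul] at h1
    have h2 : p.eval (a j) * q.eval (a j) / (derivative (Dl a b)).eval (a j)
        = - (p.eval (b j) * q.eval (b j) / (derivative (Dl a b)).eval (b j)) := by
      field_simp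
      linear_combination h1
    rw [h2, abs_neg]) z hz
  rw [hDel] at h
  exact h

/-- **Block K** -/
theorem tiedBound : Pool.Agent.Lib.MP4cd976.D.TiedBound := tiedBound_of_FIN specFIN

end Pool.Agent.Lib.MP4cd976.K
end
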