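import Mathlib

/-!
# MP_4cd976_an, block K: definitions (nested nodes, tied numerators) and the interface `SpecFIN`
-/

set_option autoImplicit false

open Finset Polynomial

namespace Pool.Agent.Lib.MP4cd976.K

/-- nested nodes `a_{k-1} < .. < a_0 < b_0 < .. < b_{k-1}` -/
structure Nest {k : ℕ} (a b : Fin k → ℝ) : Prop where
  anti : StrictAnti a
  mono : StrictMono b
  lt : ∀ i j, a i < b j

/-- `Delta = prod_j (X - a_j)(X - b_j)` -/
noncomputable def Dl {k : ℕ} (a b : Fin k → ℝ) : ℝ[X] := ∏ j : Fin k, ((X - C (a j)) * (X - C (b j)))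

/-- the numerators of tied path maps: degree `2k+2`, all roots in the open lower half plane, ties
`N(a_j)/Delta'(a_j) + N(b_j)/Delta'(b_j) = 0` -/
structure Tied {k : ℕ} (a b : Fin k → ℝ) (N : ℂ[X]) : Prop where
  deg : N.natDegree = 2 * k + 2
  root : ∀ x : ℂ, N.eval x = 0 → x.im < 0
  tie : ∀ j : Fin k, N.eval (a j : ℂ) * (((derivative (Dl a b)).eval (b j) : ℝ) : ℂ)
      + N.eval (b j : ℂ) * (((derivative (Dl a b)).eval (a j) : ℝ) : ℂ) = 0

/-- **FIN** (helper68).  For real `p`, `q` of degree `<= k+1` with `(-1)^(j+1) p(a_j) p(b_j) > 0`, the same for `q`, and the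
tie `pq(a_j) Delta'(b_j) + pq(b_j) Delta'(a_j) = 0` one has `p(z), q(z) ≠ 0` and
`| 1 + i y (p'/p + q'/q - Delta'/Delta)(z) | <= 3` for `z` in the upper half plane. -/
def SpecFIN : Prop :=
  ∀ (k : ℕ) (a b : Fin k → ℝ), Nest a b → ∀ p q : ℝ[X], p.natDegree ≤ k + 1 → q.natDegree ≤ k + 1 → p ≠ 0 → q ≠ 0 →
    (∀ j : Fin k, 0 < (-1) ^ ((j : ℕ) + 1) * (p.eval (a j) * p.eval (b j))) →
    (∀ j : Fin k, 0 < (-1) ^ ((j : ℕ) + 1) * (q.eval (a j) * q.eval (b j))) →
    (∀ j : Fin k, (p * q).eval (a j) * (derivative (Dl a b)).eval (b j)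
        + (p * q).eval (b j) * (derivative (Dl a b)).eval (a j) = 0) →
    ∀ z : ℂ, 0 < z.im →
      aeval z p ≠ 0 ∧ aeval z q ≠ 0 ∧
      ‖1 + Complex.I * (z.im : ℂ) *
        (aeval z (derivative p) / aeval z p + aeval z (derivative q) / aeval z q
          - aeval z (derivative (Dl a b)) / aeval z (Dl a b))‖ ≤ 3

/-- `N*(z) = conj (N (conj z))` -/
noncomputable def star (N : ℂ[X]) : ℂ[X] := N.map (starRingEnd ℂ)

/-- **TIE** (the final statement of block K; `(**)` for tied path maps). -/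
def SpecTIE : Prop :=
  ∀ (k : ℕ) (a b : Fin k → ℝ), Nest a b → ∀ N : ℂ[X], Tied a b N → ∀ u : ℂ, ‖u‖ = 1 → ∀ z : ℂ, 0 < z.im →
    (C u * N + C (starRingEnd ℂ u) * star N).eval z ≠ 0 ∧
    ‖1 + Complex.I * (z.im : ℂ) *
      ((derivative (C u * N + C (starRingEnd ℂ u) * star N)).eval z / (C u * N + C (starRingEnd ℂ u) * star N).eval z
        - aeval z (derivative (Dl a b)) / aeval z (Dl a b))‖ ≤ 3

end Pool.Agent.Lib.MP4cd976.K
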